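import Mathlib

/-!
# Asymmetric colourings of permutation groups of large minimal degree
-/

namespace Pool.Agent.R674.SI

open Equiv

/-- the number of colours -/
def qq : ℕ := 16 ^ 8

/-- `H` has `q` pairwise inequivalent asymmetric colourings with `q` colours. -/
def DCl {Ω : Type} (H : Subgroup (Perm Ω)) : Prop :=
  ∃ c : Fin qq → Ω → Fin qq, ∀ i j, ∀ h ∈ H, (∀ a, c i (h a) = c j a) → i = j ∧ h = 1

theorem two_mul_classes {X : Type} [Fintype X] [DecidableEq X] (g : Perm X) :
    2 * Nat.card (Quotient (Perm.SameCycle.setoid g)) ≤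
      Fintype.card X + (Finset.univ.filter (fun a => g a = a)).card := by
  classical
  have : Fintype (Quotient (Perm.SameCycle.setoid g)) := Fintype.ofFinite _
  let f : X → Quotient (Perm.SameCycle.setoid g) := fun a => Quotient.mk _ a
  have h1 : Fintype.card X = ∑ c : Quotient (Perm.SameCycle.setoid g),
      (Finset.univ.filter (fun a => f a = c)).card := by
    rw [← Finset.card_univ]
    exact Finset.card_eq_sum_card_fiberwise (fun x _ => Finset.mem_univ _)
  have h2 : (Finset.univ.filter (fun a => g a = a)).card =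
      ∑ c : Quotient (Perm.SameCycle.setoid g),
      ((Finset.univ.filter (fun a => g a = a)).filter (fun a => f a = c)).card :=
    Finset.card_eq_sum_card_fiberwise (fun x _ => Finset.mem_univ _)
  rw [h1, h2, ← Finset.sum_add_distrib, Nat.card_eq_fintype_card, mul_comm, ← Finset.card_univ,
    ← smul_eq_mul, ← Finset.sum_const]
  apply Finset.sum_le_sum
  intro c _
  obtain ⟨a, rfl⟩ := Quotient.exists_rep c
  by_cases ha : g a = a
  · have e1 : 0 < (Finset.univ.filter (fun b => f b = Quotient.mk _ a)).card :=
      Finset.card_pos.2 ⟨a, by simp [f]⟩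
    have e2 : 0 < ((Finset.univ.filter (fun b => g b = b)).filter
        (fun b => f b = Quotient.mk _ a)).card :=
      Finset.card_pos.2 ⟨a, by simp [f, ha]⟩
    omega
  · have e1 : 1 < (Finset.univ.filter (fun b => f b = Quotient.mk _ a)).card := by
      apply Finset.one_lt_card.2
      refine ⟨a, by simp [f], g a, ?_, fun h => ha h.symm⟩
      simp only [Finset.mem_filter, Finset.mem_univ, true_and, f]
      apply Quotient.sound
      exact (Perm.SameCycle.refl g a).apply_left |>.symm |> fun h => by
        exact h.symm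
    omega

/-- colourings invariant under `g` -/
theorem card_invariant_colourings {X : Type} [Fintype X] [DecidableEq X] (g : Perm X) (q : ℕ) :
    Nat.card {c : X → Fin q // ∀ a, c (g a) = c a} ≤
      q ^ Nat.card (Quotient (Perm.SameCycle.setoid g)) := by
  classical
  have : Fintype (Quotient (Perm.SameCycle.setoid g)) := Fintype.ofFinite _
  have hz : ∀ c : X → Fin q, (∀ a, c (g a) = c a) → ∀ (n : ℤ) a, c ((g ^ n) a) = c a := by
    intro c hc n
    induction n using Int.induction_on with
    | zero => intro a; simp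
    | succ n ih => intro a; rw [zpow_add_one, Perm.mul_apply, ih, hc]
    | pred n ih =>
      intro a
      rw [zpow_sub_one, Perm.mul_apply, ih]
      have e : g (g⁻¹ a) = a := by simp
      conv_rhs => rw [← e]
      rw [hc]
  have hinj : Function.Injective (fun (c : {c : X → Fin q // ∀ a, c (g a) = c a})
      (z : Quotient (Perm.SameCycle.setoid g)) => c.1 z.out) := by
    intro c c' hcc
    apply Subtype.ext
    funext a
    have h1 := congrFun hcc (Quotient.mk _ a)
    obtain ⟨n, hn⟩ : Perm.SameCycle g (Quotient.mk (Perm.SameCycle.setoid g) a).out a :=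
      Quotient.exact (Quotient.out_eq (Quotient.mk (Perm.SameCycle.setoid g) a))
    calc c.1 a = c.1 ((g ^ n) (Quotient.mk (Perm.SameCycle.setoid g) a).out) := by rw [hn]
      _ = c.1 (Quotient.mk (Perm.SameCycle.setoid g) a).out := hz c.1 c.2 n _
      _ = c'.1 (Quotient.mk (Perm.SameCycle.setoid g) a).out := h1
      _ = c'.1 ((g ^ n) (Quotient.mk (Perm.SameCycle.setoid g) a).out) := (hz c'.1 c'.2 n _).symm
      _ = c'.1 a := by rw [hn]
  have := Nat.card_le_card_of_injective _ hinj
  rwa [Nat.card_fun, Nat.card_eq_fintype_card (α := Fin q), Fintype.card_fin] at this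

/-- Groups of minimal degree at least half of the degree and exponential order have `q`
inequivalent asymmetric colourings. -/
theorem prim_D {X : Type} [Fintype X] [DecidableEq X] (P : Subgroup (Perm X))
    (hX : 2 ≤ Fintype.card X)
    (h1 : ∀ g ∈ P, g ≠ 1 → 2 * (Finset.univ.filter (fun a => g a = a)).card ≤ Fintype.card X)
    (h2 : Nat.card P ≤ 16 ^ (Fintype.card X - 1)) : DCl P := by
  classical
  set m := Fintype.card X with hm
  let good : Finset (X → Fin qq) :=
    Finset.univ.filter (fun c => ∀ g ∈ P, (∀ a, c (g a) = c a) → g = 1)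
  have hbad : (Finset.univ \ good).card ≤ Nat.card P * 256 ^ (3 * m) := by
    have hsub : Finset.univ \ good ⊆ (Finset.univ.filter (fun g : Perm X => g ∈ P ∧ g ≠ 1)).biUnion
        (fun g => Finset.univ.filter (fun c : X → Fin qq => ∀ a, c (g a) = c a)) := by
      intro c hc
      simp only [good, Finset.mem_sdiff, Finset.mem_univ, Finset.mem_filter, true_and, not_forall]
        at hc
      obtain ⟨g, hg, hgc, hg1⟩ := hc
      simp only [Finset.mem_biUnion, Finset.mem_filter, Finset.mem_univ, true_and]
      exact ⟨g, ⟨hg, hg1⟩, hgc⟩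
    refine (Finset.card_le_card hsub).trans (Finset.card_biUnion_le.trans ?_)
    have hP : (Finset.univ.filter (fun g : Perm X => g ∈ P ∧ g ≠ 1)).card ≤ Nat.card P := by
      rw [Nat.card_eq_fintype_card, Fintype.card_subtype]
      exact Finset.card_le_card (fun g hg => by
        simp only [Finset.mem_filter, Finset.mem_univ, true_and] at hg ⊢
        exact hg.1)
    refine (Finset.sum_le_card_nsmul _ _ (256 ^ (3 * m)) ?_).trans
      (by rw [smul_eq_mul]; exact Nat.mul_le_mul_right _ hP)
    intro g hg
    simp only [Finset.mem_filter, Finset.mem_univ, true_and] at hg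
    have h3 := card_invariant_colourings g qq
    rw [Nat.card_eq_fintype_card, Fintype.card_subtype] at h3
    refine h3.trans ?_
    have h4 := two_mul_classes g
    have h5 := h1 g hg.1 hg.2
    have h6 : 4 * Nat.card (Quotient (Perm.SameCycle.setoid g)) ≤ 3 * m := by omega
    have h7 : qq = 256 ^ 4 := by norm_num [qq]
    rw [h7, ← pow_mul]
    exact Nat.pow_le_pow_right (by norm_num) h6
  have htot : (Finset.univ : Finset (X → Fin qq)).card = 16 ^ (8 * m) := by
    rw [Finset.card_univ, Fintype.card_fun, Fintype.card_fin, qq, ← pow_mul]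
  have hgood : qq * Nat.card P ≤ good.card := by
    have h3 : good.card + (Finset.univ \ good).card = 16 ^ (8 * m) := by
      rw [← htot, add_comm]
      exact Finset.card_sdiff_add_card_eq_card (Finset.subset_univ _)
    have h4 : Nat.card P * 256 ^ (3 * m) ≤ 16 ^ (7 * m - 1) := by
      calc Nat.card P * 256 ^ (3 * m) ≤ 16 ^ (m - 1) * 256 ^ (3 * m) := Nat.mul_le_mul_right _ h2
        _ = 16 ^ (m - 1) * 16 ^ (6 * m) := by
            rw [show (256 : ℕ) = 16 ^ 2 by norm_num, ← pow_mul]; ring_nf
        _ = 16 ^ (7 * m - 1) := by rw [← pow_add]; congr 1; omega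
    have h5 : qq * Nat.card P ≤ 16 ^ (m + 7) := by
      calc qq * Nat.card P ≤ 16 ^ 8 * 16 ^ (m - 1) := Nat.mul_le_mul_left _ h2
        _ = 16 ^ (m + 7) := by rw [← pow_add]; congr 1; omega
    have h6 : 16 ^ (m + 7) ≤ 16 ^ (8 * m - 1) := Nat.pow_le_pow_right (by norm_num) (by omega)
    have h7 : (16 : ℕ) ^ (7 * m - 1) ≤ 16 ^ (8 * m - 1) :=
      Nat.pow_le_pow_right (by norm_num) (by omega)
    have h8 : (16 : ℕ) ^ (8 * m) = 16 * 16 ^ (8 * m - 1) := by
      rw [← pow_succ']; congr 1; omega
    omega
  -- equivalence classes of good colourings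
  let S : Setoid {c : X → Fin qq // c ∈ good} :=
    { r := fun c c' => ∃ g ∈ P, ∀ a, c.1 (g a) = c'.1 a
      iseqv := by
        refine ⟨fun c => ⟨1, P.one_mem, fun a => rfl⟩, ?_, ?_⟩
        · rintro c c' ⟨g, hg, h⟩
          refine ⟨g⁻¹, P.inv_mem hg, fun a => ?_⟩
          have e : g (g⁻¹ a) = a := by simp
          rw [← h, e]
        · rintro c c' c'' ⟨g, hg, h⟩ ⟨g', hg', h'⟩
          refine ⟨g * g', P.mul_mem hg hg', fun a => ?_⟩
          rw [Perm.mul_apply, h, h'] }
  have : Fintype (Quotient S) := Fintype.ofFinite _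
  have hcl : good.card ≤ Nat.card P * Fintype.card (Quotient S) := by
    have h3 := Finset.card_le_mul_card_image (f := fun c : {c : X → Fin qq // c ∈ good} =>
      (Quotient.mk S c)) (Finset.univ) (Nat.card P) (by
        intro b _
        obtain ⟨c, rfl⟩ := Quotient.exists_rep b
        have h4 : (Finset.univ.filter (fun c' : {c : X → Fin qq // c ∈ good} =>
            Quotient.mk S c' = Quotient.mk S c)) ⊆
            (Finset.univ : Finset (↥P)).image (fun g : ↥P =>
              (if h : (fun a => c.1 ((g : Perm X) a)) ∈ good then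
                (⟨fun a => c.1 ((g : Perm X) a), h⟩ : {c : X → Fin qq // c ∈ good}) else c)) := by
          intro c' hc'
          simp only [Finset.mem_filter, Finset.mem_univ, true_and] at hc'
          obtain ⟨g, hg, h5⟩ : ∃ g ∈ P, ∀ a, c.1 (g a) = c'.1 a := Quotient.exact hc'.symm
          rw [Finset.mem_image]
          refine ⟨⟨g, hg⟩, Finset.mem_univ _, ?_⟩
          have h6 : (fun a => c.1 (g a)) = c'.1 := funext h5
          have h7 : (fun a => c.1 (g a)) ∈ good := by rw [h6]; exact c'.2
          rw [dif_pos h7]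
          exact Subtype.ext h6
        refine (Finset.card_le_card h4).trans (Finset.card_image_le.trans ?_)
        rw [Finset.card_univ, Nat.card_eq_fintype_card])
    rw [Finset.card_univ, Fintype.card_coe] at h3
    refine h3.trans (Nat.mul_le_mul_left _ (Finset.card_le_univ _))
  have hPpos : 0 < Nat.card P := Nat.card_pos
  have hq : qq ≤ Fintype.card (Quotient S) := by
    have := hgood.trans hcl
    rw [mul_comm] at this
    exact Nat.le_of_mul_le_mul_left this hPpos
  obtain ⟨e⟩ : Nonempty (Fin qq ↪ Quotient S) :=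
    Function.Embedding.nonempty_of_card_le (by rw [Fintype.card_fin]; exact hq)
  refine ⟨fun i => (e i).out.1, ?_⟩
  intro i j h hh hc
  have h3 : (e i).out ≈ (e j).out := ⟨h, hh, hc⟩
  have h4 : e i = e j := by
    rw [← Quotient.out_eq (e i), ← Quotient.out_eq (e j)]
    exact Quotient.sound h3
  have h5 := e.injective h4
  subst h5
  refine ⟨rfl, ?_⟩
  have h6 := (e i).out.2
  simp only [good, Finset.mem_filter, Finset.mem_univ, true_and] at h6
  exact h6 h hh hc

end Pool.Agent.R674.SI
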