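import Mathlib

/-!
# Primitive soluble groups: minimal degree and order
-/

namespace Pool.Agent.R674.SI

open MulAction Subgroup

theorem exists_abelian_normal (G : Type*) [Group G] [Group.IsSolvable G] [Nontrivial G] :
    ∃ V : Subgroup G, V.Normal ∧ V ≠ ⊥ ∧ ∀ a ∈ V, ∀ b ∈ V, a * b = b * a := by
  classical
  obtain hs := Group.IsSolvable.solvable (G := G)
  have h1 := Nat.find_spec hs
  have h0 : Nat.find hs ≠ 0 := by
    intro h
    rw [h, derivedSeries_zero] at h1
    exact top_ne_bot h1
  obtain ⟨n, hn⟩ : ∃ n, Nat.find hs = n + 1 := ⟨Nat.find hs - 1, by omega⟩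
  refine ⟨derivedSeries G n, derivedSeries_normal G n, ?_, ?_⟩
  · intro h
    have := Nat.find_min' hs h
    omega
  · rw [hn, derivedSeries_succ, commutator_eq_bot_iff_le_centralizer] at h1
    intro a ha b hb
    exact ((mem_centralizer_iff.1 (h1 ha)) b hb).symm

/-- a group of order `N` has a generating set with at most `log₂ N` elements -/
theorem exists_gen {G : Type*} [Group G] [Finite G] (V : Subgroup G) :
    ∃ T : Finset G, Subgroup.closure (T : Set G) = V ∧ 2 ^ T.card ≤ Nat.card V := by
  classical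
  -- maximal finset with the counting property
  have key : ∀ k : ℕ, ∃ T : Finset G, Subgroup.closure (T : Set G) ≤ V ∧
      2 ^ T.card ≤ Nat.card (Subgroup.closure (T : Set G)) ∧
      (Subgroup.closure (T : Set G) = V ∨ k ≤ Nat.card (Subgroup.closure (T : Set G))) := by
    intro k
    induction k with
    | zero => exact ⟨∅, by simp, by simp, Or.inr (Nat.zero_le _)⟩
    | succ k ih =>
      obtain ⟨T, h1, h2, h3⟩ := ih
      rcases h3 with h3 | h3
      · exact ⟨T, h1, h2, Or.inl h3⟩
      by_cases hT : Subgroup.closure (T : Set G) = V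
      · exact ⟨T, h1, h2, Or.inl hT⟩
      obtain ⟨v, hv, hv'⟩ := SetLike.exists_of_lt (lt_of_le_of_ne h1 hT)
      have hle : Subgroup.closure (T : Set G) ≤ Subgroup.closure ((insert v T : Finset G) : Set G) :=
        Subgroup.closure_mono (by simp)
      have hvin : v ∈ Subgroup.closure ((insert v T : Finset G) : Set G) :=
        Subgroup.subset_closure (by simp)
      have hlt : Subgroup.closure (T : Set G) < Subgroup.closure ((insert v T : Finset G) : Set G) :=
        lt_of_le_of_ne hle (fun h => hv' (h ▸ hvin))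
      have hdvd := Subgroup.card_dvd_of_le hle
      have hpos : 0 < Nat.card (Subgroup.closure ((insert v T : Finset G) : Set G)) := Nat.card_pos
      have hcard : 2 * Nat.card (Subgroup.closure (T : Set G)) ≤
          Nat.card (Subgroup.closure ((insert v T : Finset G) : Set G)) := by
        obtain ⟨c, hc⟩ := hdvd
        have hc0 : c ≠ 0 := by rintro rfl; omega
        have hc1 : c ≠ 1 := by
          rintro rfl
          rw [mul_one] at hc
          exact absurd (Subgroup.eq_of_le_of_card_ge hle hc.le) hlt.ne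
        rw [hc]
        have : 2 ≤ c := by omega
        nlinarith
      have hTc : 0 < Nat.card (Subgroup.closure (T : Set G)) := Nat.card_pos
      refine ⟨insert v T, ?_, ?_, Or.inr (by omega)⟩
      · rw [Subgroup.closure_le]
        intro x hx
        simp only [Finset.coe_insert, Set.mem_insert_iff, Finset.mem_coe] at hx
        rcases hx with rfl | hx
        · exact hv
        · exact h1 (Subgroup.subset_closure hx)
      · have : v ∉ T := fun h => hv' (Subgroup.subset_closure h)
        rw [Finset.card_insert_of_notMem this, pow_succ]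
        omega
  obtain ⟨T, h1, h2, h3⟩ := key (Nat.card V + 1)
  rcases h3 with h3 | h3
  · exact ⟨T, h3, h3 ▸ h2⟩
  · have : Nat.card (Subgroup.closure (T : Set G)) ≤ Nat.card V :=
      Nat.card_le_card_of_injective (Subgroup.inclusion h1) (Subgroup.inclusion_injective h1)
    omega

theorem two_pow_bound (K : ℕ) (hK : 1 ≤ K) : (K + 1) * (K + 1) ≤ 4 * (2 ^ K - 1) := by
  induction K with
  | zero => omega
  | succ K ih =>
    rcases Nat.eq_zero_or_pos K with rfl | hK'
    · norm_num
    · have := ih hK'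
      have h2 : K + 1 ≤ 2 ^ K := Nat.lt_two_pow_self
      rw [pow_succ]
      rcases Nat.lt_or_ge K 2 with h | h
      · have : K = 1 := by omega
        subst this; norm_num
      · have h4 : 2 * (K + 1) + 1 ≤ 4 * 2 ^ K := by omega
        zify at this ⊢
        have h5 : (1 : ℕ) ≤ 2 ^ K := Nat.one_le_two_pow
        have h6 : (1 : ℕ) ≤ 2 ^ K * 2 := by omega
        rw [Nat.cast_sub h5] at this
        rw [Nat.cast_sub h6]
        push_cast at this ⊢
        have h7 : (2 * ((K : ℤ) + 1) + 1) ≤ 4 * 2 ^ K := by exact_mod_cast h4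
        nlinarith

theorem pow_bound (m k : ℕ) (hm : 2 ≤ m) (hk : 2 ^ k ≤ m) : m ^ (k + 1) ≤ 16 ^ (m - 1) := by
  set K := Nat.log 2 m with hKdef
  have h1 : 2 ^ K ≤ m := Nat.pow_log_le_self 2 (by omega)
  have h2 : m < 2 ^ (K + 1) := Nat.lt_pow_succ_log_self (by omega) m
  have hkK : k ≤ K := (Nat.le_log_iff_pow_le (by omega) (by omega)).2 hk
  have hK1 : 1 ≤ K := (Nat.le_log_iff_pow_le (by omega) (by omega)).2 (by omega)
  have h3 := two_pow_bound K hK1
  calc m ^ (k + 1) ≤ (2 ^ (K + 1)) ^ (k + 1) := Nat.pow_le_pow_left h2.le _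
    _ ≤ (2 ^ (K + 1)) ^ (K + 1) := Nat.pow_le_pow_right (by positivity) (by omega)
    _ = 2 ^ ((K + 1) * (K + 1)) := by rw [← pow_mul]
    _ ≤ 2 ^ (4 * (m - 1)) := Nat.pow_le_pow_right (by norm_num) (by omega)
    _ = 16 ^ (m - 1) := by rw [pow_mul]; norm_num

section Prim

variable {P X : Type*} [Group P] [Finite P] [Group.IsSolvable P] [MulAction P X] [Finite X]
  [Nontrivial X] [FaithfulSMul P X] [IsPreprimitive P X]

theorem nontrivial_of_transitive {P X : Type*} [Group P] [MulAction P X]
    [Nontrivial X] [IsPretransitive P X] : Nontrivial P := by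
  obtain ⟨x, y, hxy⟩ := exists_pair_ne X
  obtain ⟨g, hg⟩ := MulAction.exists_smul_eq P x y
  refine ⟨g, 1, ?_⟩
  rintro rfl
  exact hxy (by simpa using hg)

omit [Finite P] [Finite X] in
variable (P X) in
theorem exists_regular : ∃ V : Subgroup P, V.Normal ∧ (∀ a ∈ V, ∀ b ∈ V, a * b = b * a) ∧
    (∀ x y : X, ∃ v ∈ V, v • x = y) ∧ (∀ v ∈ V, ∀ x : X, v • x = x → v = 1) := by
  have : Nontrivial P := nontrivial_of_transitive (X := X)
  obtain ⟨V, hV1, hV2, hV3⟩ := exists_abelian_normal P
  have := hV1
  have hfix : MulAction.fixedPoints V X ≠ Set.univ := by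
    intro h
    apply hV2
    rw [eq_bot_iff]
    intro v hv
    rw [Subgroup.mem_bot]
    apply FaithfulSMul.eq_of_smul_eq_smul (α := X)
    intro x
    have : x ∈ MulAction.fixedPoints V X := by rw [h]; trivial
    rw [one_smul]
    exact this ⟨v, hv⟩
  have : IsPretransitive V X := IsQuasiPreprimitive.isPretransitive_of_normal hfix
  have htr : ∀ x y : X, ∃ v ∈ V, v • x = y := by
    intro x y
    obtain ⟨v, hv⟩ := MulAction.exists_smul_eq V x y
    exact ⟨v, v.2, hv⟩
  refine ⟨V, hV1, hV3, htr, ?_⟩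
  intro v hv x hx
  apply FaithfulSMul.eq_of_smul_eq_smul (α := X)
  intro y
  obtain ⟨u, hu, rfl⟩ := htr x y
  rw [one_smul, ← mul_smul, hV3 v hv u hu, mul_smul, hx]

omit [Finite P] [Group.IsSolvable P] [Finite X] [Nontrivial X] [FaithfulSMul P X]
  [IsPreprimitive P X] in
theorem card_V {V : Subgroup P} (x₀ : X) (h3 : ∀ x y : X, ∃ v ∈ V, v • x = y)
    (h4 : ∀ v ∈ V, ∀ x : X, v • x = x → v = 1) : Nat.card V = Nat.card X := by
  apply Nat.card_congr
  refine Equiv.ofBijective (fun v : V => (v : P) • x₀) ⟨?_, ?_⟩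
  · intro u v huv
    have : ((v : P)⁻¹ * u) • x₀ = x₀ := by
      rw [mul_smul]
      have huv' : (u : P) • x₀ = (v : P) • x₀ := huv
      rw [huv', inv_smul_smul]
    have := h4 _ (V.mul_mem (V.inv_mem v.2) u.2) x₀ this
    exact Subtype.ext (inv_mul_eq_one.1 this).symm
  · intro x
    obtain ⟨v, hv, hx⟩ := h3 x₀ x
    exact ⟨⟨v, hv⟩, hx⟩

/-- minimal degree of a primitive soluble group -/
theorem prim_min_degree (g : P) (hg : g ≠ 1) :
    2 * Nat.card {x : X // g • x = x} ≤ Nat.card X := by
  obtain ⟨V, h1, h2, h3, h4⟩ := exists_regular P X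
  by_cases hx : ∃ x₀ : X, g • x₀ = x₀
  · obtain ⟨x₀, hx₀⟩ := hx
    -- the centralizer of g in V
    let C : Subgroup V := (Subgroup.centralizer {g}).subgroupOf V
    have hC : Nat.card {x : X // g • x = x} = Nat.card C := by
      symm
      apply Nat.card_congr
      refine Equiv.ofBijective (fun v : C => ⟨((v : V) : P) • x₀, ?_⟩) ⟨?_, ?_⟩
      · have hv : g * ((v : V) : P) = ((v : V) : P) * g := by
          have := v.2
          rw [Subgroup.mem_subgroupOf, Subgroup.mem_centralizer_singleton_iff] at this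
          exact this.symm
        rw [← mul_smul, hv, mul_smul, hx₀]
      · intro u v huv
        have huv' : ((u : V) : P) • x₀ = ((v : V) : P) • x₀ := congrArg Subtype.val huv
        have : (((v : V) : P)⁻¹ * (u : V)) • x₀ = x₀ := by
          rw [mul_smul, huv', inv_smul_smul]
        have := h4 _ (V.mul_mem (V.inv_mem (v : V).2) (u : V).2) x₀ this
        exact Subtype.ext (Subtype.ext (inv_mul_eq_one.1 this).symm)
      · rintro ⟨x, hx⟩
        obtain ⟨v, hv, rfl⟩ := h3 x₀ x
        have hgv : g * v * g⁻¹ ∈ V := h1.conj_mem v hv g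
        have hgx : (g * v * g⁻¹) • x₀ = v • x₀ := by
          rw [mul_smul, mul_smul]
          rw [inv_smul_eq_iff.2 hx₀.symm]
          exact hx
        have h5 : (v⁻¹ * (g * v * g⁻¹)) • x₀ = x₀ := by
          rw [mul_smul, hgx, inv_smul_smul]
        have h6 := h4 _ (V.mul_mem (V.inv_mem hv) hgv) x₀ h5
        have h7 : g * v * g⁻¹ = v := (inv_mul_eq_one.1 h6).symm
        refine ⟨⟨⟨v, hv⟩, ?_⟩, rfl⟩
        rw [Subgroup.mem_subgroupOf, Subgroup.mem_centralizer_singleton_iff]
        exact (mul_inv_eq_iff_eq_mul.1 h7).symm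
    rw [hC, ← card_V x₀ h3 h4, ← Subgroup.card_mul_index C]
    have hind : C.index ≠ 1 := by
      intro h
      rw [Subgroup.index_eq_one] at h
      apply hg
      apply FaithfulSMul.eq_of_smul_eq_smul (α := X)
      intro x
      obtain ⟨v, hv, rfl⟩ := h3 x₀ x
      have : (⟨v, hv⟩ : V) ∈ C := by rw [h]; trivial
      rw [Subgroup.mem_subgroupOf, Subgroup.mem_centralizer_singleton_iff] at this
      rw [one_smul, ← mul_smul, ← this, mul_smul, hx₀]
    have hind0 : C.index ≠ 0 := Subgroup.index_ne_zero_of_finite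
    have : 2 ≤ C.index := by omega
    nlinarith
  · push Not at hx
    have : IsEmpty {x : X // g • x = x} := ⟨fun x => hx x.1 x.2⟩
    simp

/-- order of a primitive soluble group -/
theorem prim_order : Nat.card P ≤ 16 ^ (Nat.card X - 1) := by
  obtain ⟨V, h1, h2, h3, h4⟩ := exists_regular P X
  obtain ⟨x₀⟩ : Nonempty X := inferInstance
  obtain ⟨T, hT1, hT2⟩ := exists_gen V
  have hV := card_V x₀ h3 h4
  have hTV : ∀ t ∈ T, t ∈ V := fun t ht => hT1 ▸ Subgroup.subset_closure ht
  have horb : Nat.card P = Nat.card X * Nat.card (stabilizer P x₀) := by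
    rw [← MulAction.index_stabilizer_of_transitive P x₀, mul_comm, Subgroup.card_mul_index]
  have hst : Nat.card (stabilizer P x₀) ≤ Nat.card X ^ T.card := by
    have hinj : Function.Injective (fun (g : stabilizer P x₀) (t : T) =>
        (⟨(g : P) * t * (g : P)⁻¹, h1.conj_mem t (hTV t t.2) g⟩ : V)) := by
      intro g g' hgg
      have h5 : ∀ t ∈ T, (g : P) * t * (g : P)⁻¹ = g' * t * (g' : P)⁻¹ := by
        intro t ht
        exact congrArg Subtype.val (congrFun hgg ⟨t, ht⟩)
      have h6 : V ≤ Subgroup.centralizer {(g' : P)⁻¹ * g} := by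
        rw [← hT1, Subgroup.closure_le]
        intro t ht
        rw [SetLike.mem_coe, Subgroup.mem_centralizer_singleton_iff]
        have := h5 t ht
        have h7 : (g : P) * t = g' * t * (g' : P)⁻¹ * g := by
          rw [← this]; group
        calc t * ((g' : P)⁻¹ * g) = (g' : P)⁻¹ * (g' * t * (g' : P)⁻¹ * g) := by group
          _ = (g' : P)⁻¹ * g * t := by rw [← h7]; group
      have h8 : (g' : P)⁻¹ * g = 1 := by
        apply FaithfulSMul.eq_of_smul_eq_smul (α := X)
        intro x
        obtain ⟨v, hv, rfl⟩ := h3 x₀ x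
        have h9 := h6 hv
        rw [Subgroup.mem_centralizer_singleton_iff] at h9
        have h10 : ((g' : P)⁻¹ * g) • x₀ = x₀ := by
          rw [mul_smul, (mem_stabilizer_iff.1 g.2), inv_smul_eq_iff, (mem_stabilizer_iff.1 g'.2)]
        rw [one_smul, ← mul_smul, ← h9, mul_smul, h10]
      exact Subtype.ext (inv_mul_eq_one.1 h8).symm
    have := Nat.card_le_card_of_injective _ hinj
    rwa [Nat.card_fun, hV, Nat.card_eq_fintype_card (α := T), Fintype.card_coe] at this
  have hX : 2 ≤ Nat.card X := Finite.one_lt_card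
  calc Nat.card P = Nat.card X * Nat.card (stabilizer P x₀) := horb
    _ ≤ Nat.card X * Nat.card X ^ T.card := Nat.mul_le_mul_left _ hst
    _ = Nat.card X ^ (T.card + 1) := by rw [pow_succ']
    _ ≤ 16 ^ (Nat.card X - 1) := pow_bound _ _ hX (hV ▸ hT2)

end Prim

end Pool.Agent.R674.SI
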