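import Mathlib
import Pool.Agent.R674.SI.Prim
import Pool.Agent.R674.SI.Col

/-!
# Decomposition of a soluble permutation group
-/

namespace Pool.Agent.R674.SI

open Equiv MulAction

theorem prim_consequences {X : Type} [Fintype X] [DecidableEq X] (P : Subgroup (Perm X))
    [Group.IsSolvable P] [Nontrivial X] [IsPreprimitive P X] :
    (∀ g ∈ P, g ≠ 1 → 2 * (Finset.univ.filter (fun a => g a = a)).card ≤ Fintype.card X) ∧
    Nat.card P ≤ 16 ^ (Fintype.card X - 1) := by
  constructor
  · intro g hg hg1
    have := prim_min_degree (P := P) (X := X) ⟨g, hg⟩ (fun h => hg1 (congrArg Subtype.val h))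
    rw [Nat.card_eq_fintype_card, Nat.card_eq_fintype_card, Fintype.card_subtype] at this
    exact this
  · have := prim_order (P := P) (X := X)
    rwa [Nat.card_eq_fintype_card (α := X)] at this

theorem decomp {Ω : Type} [Fintype Ω] [DecidableEq Ω] (H : Subgroup (Perm Ω))
    [Group.IsSolvable H] (hΩ : 2 ≤ Fintype.card Ω) :
    ∃ (X : Type) (_ : Fintype X) (_ : DecidableEq X) (π : Ω → X) (ρ : H →* Perm X),
      Function.Surjective π ∧ (∀ (h : H) a, π ((h : Perm Ω) a) = ρ h (π a)) ∧
      2 ≤ Fintype.card X ∧
      (∀ h : H, ρ h = 1 ∨ Fintype.card Ω ≤ 2 * (h : Perm Ω).support.card) ∧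
      Nat.card ρ.range ≤ 16 ^ (Fintype.card X - 1) ∧
      ((∀ h, ρ h = 1) ∨ ((∀ x y, ∃ h, ρ h x = y) ∧ DCl ρ.range)) := by
  classical
  by_cases htr : ∀ x y : Ω, ∃ h : H, (h : Perm Ω) x = y
  swap
  · push Not at htr
    obtain ⟨x, y, hxy⟩ := htr
    refine ⟨Bool, inferInstance, inferInstance, fun z => decide (∃ h : H, (h : Perm Ω) x = z), 1,
      ?_, ?_, by simp, fun h => Or.inl rfl, ?_, Or.inl (fun h => rfl)⟩
    · intro b
      cases b
      · exact ⟨y, by simpa using hxy⟩
      · exact ⟨x, by simpa using ⟨1, H.one_mem, rfl⟩⟩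
    · intro h a
      simp only [MonoidHom.one_apply, Perm.coe_one, id_eq, decide_eq_decide]
      constructor
      · rintro ⟨g, hg⟩
        refine ⟨h⁻¹ * g, ?_⟩
        rw [Subgroup.coe_mul, Perm.mul_apply, hg]
        simp
      · rintro ⟨g, hg⟩
        refine ⟨h * g, ?_⟩
        rw [Subgroup.coe_mul, Perm.mul_apply, hg]
    · rw [MonoidHom.range_one, Subgroup.card_bot]
      exact Nat.one_le_pow _ _ (by norm_num)
  · have : IsPretransitive H Ω := ⟨fun x y => by
      obtain ⟨h, hh⟩ := htr x y
      exact ⟨h, hh⟩⟩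
    have : Nontrivial Ω := Fintype.one_lt_card_iff_nontrivial.1 hΩ
    obtain ⟨a⟩ : Nonempty Ω := inferInstance
    have hst : stabilizer H a ≠ ⊤ := by
      intro h
      obtain ⟨b, hb⟩ := exists_ne a
      obtain ⟨g, hg⟩ := htr a b
      have : g ∈ stabilizer H a := by rw [h]; trivial
      exact hb (hg ▸ (mem_stabilizer_iff.1 this))
    obtain ⟨M, hM, hle⟩ := (eq_top_or_exists_le_coatom (stabilizer H a)).resolve_left hst
    have : Finite (H ⧸ M) := inferInstance
    have : Fintype (H ⧸ M) := Fintype.ofFinite _
    have hnt : Nontrivial (H ⧸ M) := by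
      rw [← not_subsingleton_iff_nontrivial]
      intro hs
      exact hM.1 (QuotientGroup.subgroup_eq_top_of_subsingleton M hs)
    have hprim : IsPreprimitive H (H ⧸ M) := by
      rw [← isCoatom_stabilizer_iff_preprimitive H ((1 : H) : H ⧸ M), MulAction.stabilizer_quotient]
      exact hM
    choose g hg using htr a
    let π : Ω → H ⧸ M := fun x => (g x : H ⧸ M)
    let ρ : H →* Perm (H ⧸ M) := MulAction.toPermHom H (H ⧸ M)
    have hequiv : ∀ (h : H) x, π ((h : Perm Ω) x) = ρ h (π x) := by
      intro h x
      change ((g ((h : Perm Ω) x) : H) : H ⧸ M) = ((h * g x : H) : H ⧸ M)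
      rw [QuotientGroup.eq]
      apply hle
      rw [mem_stabilizer_iff]
      change (((g ((h : Perm Ω) x))⁻¹ * (h * g x) : H) : Perm Ω) a = a
      rw [Subgroup.coe_mul, Subgroup.coe_mul, Perm.mul_apply, Perm.mul_apply, hg,
        Subgroup.coe_inv, Perm.inv_eq_iff_eq]
      exact (hg ((h : Perm Ω) x)).symm
    have hsurj : Function.Surjective π := by
      intro c
      obtain ⟨h, rfl⟩ := QuotientGroup.mk_surjective c
      refine ⟨(h : Perm Ω) a, ?_⟩
      change ((g ((h : Perm Ω) a) : H) : H ⧸ M) = (h : H ⧸ M)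
      rw [QuotientGroup.eq]
      apply hle
      rw [mem_stabilizer_iff]
      change (((g ((h : Perm Ω) a))⁻¹ * h : H) : Perm Ω) a = a
      rw [Subgroup.coe_mul, Perm.mul_apply, Subgroup.coe_inv, Perm.inv_eq_iff_eq]
      exact (hg ((h : Perm Ω) a)).symm
    have htrans : ∀ x y : H ⧸ M, ∃ h, ρ h x = y := fun x y => MulAction.exists_smul_eq H x y
    -- the image
    have hsolv : Group.IsSolvable ρ.range :=
      Group.isSolvable_of_surjective (f := ρ.rangeRestrict) (ρ.rangeRestrict_surjective)
    have hprim' : IsPreprimitive ρ.range (H ⧸ M) := by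
      let f : (H ⧸ M) →ₑ[ρ.rangeRestrict] (H ⧸ M) :=
        { toFun := id
          map_smul' := fun h x => rfl }
      exact IsPreprimitive.of_surjective (f := f) Function.surjective_id
    obtain ⟨c1, c2⟩ := prim_consequences ρ.range
    have hcardX : 2 ≤ Fintype.card (H ⧸ M) := Fintype.one_lt_card
    -- equal fibres
    have hfib : ∀ x y : H ⧸ M, (Finset.univ.filter (fun b => π b = x)).card =
        (Finset.univ.filter (fun b => π b = y)).card := by
      have hle' : ∀ x y : H ⧸ M, (Finset.univ.filter (fun b => π b = x)).card ≤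
        (Finset.univ.filter (fun b => π b = y)).card := by
        intro x y
        obtain ⟨h, hh⟩ := htrans x y
        apply Finset.card_le_card_of_injOn (fun b => (h : Perm Ω) b)
        · intro b hb
          simp only [Finset.coe_filter, Finset.mem_univ, true_and, Set.mem_ofPred_eq] at hb ⊢
          rw [hequiv, hb, hh]
        · exact fun b _ b' _ hbb => (h : Perm Ω).injective hbb
      exact fun x y => le_antisymm (hle' x y) (hle' y x)
    refine ⟨H ⧸ M, inferInstance, inferInstance, π, ρ, hsurj, hequiv, hcardX, ?_, c2,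
      Or.inr ⟨htrans, prim_D ρ.range hcardX c1 c2⟩⟩
    intro h
    by_cases hρ : ρ h = 1
    · exact Or.inl hρ
    right
    have c3 := c1 (ρ h) ⟨h, rfl⟩ hρ
    set F := Finset.univ.filter (fun x => (ρ h) x = x) with hF
    set N := Finset.univ.filter (fun x => (ρ h) x ≠ x) with hN
    have hFN : F.card + N.card = Fintype.card (H ⧸ M) := by
      rw [hF, hN, Finset.card_filter_add_card_filter_not, Finset.card_univ]
    obtain ⟨x₀⟩ : Nonempty (H ⧸ M) := inferInstance
    set b := (Finset.univ.filter (fun z => π z = x₀)).card with hb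
    have hΩc : Fintype.card Ω = Fintype.card (H ⧸ M) * b := by
      rw [← Finset.card_univ (α := Ω), Finset.card_eq_sum_card_fiberwise (f := π)
        (t := Finset.univ) (fun x _ => Finset.mem_univ _)]
      rw [Finset.sum_congr rfl (fun x _ => hfib x x₀), Finset.sum_const, Finset.card_univ,
        smul_eq_mul]
    have hsupp : N.card * b ≤ (h : Perm Ω).support.card := by
      have : (h : Perm Ω).support.card = ∑ x : H ⧸ M,
          ((h : Perm Ω).support.filter (fun z => π z = x)).card :=
        Finset.card_eq_sum_card_fiberwise (fun x _ => Finset.mem_univ _)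
      rw [this]
      calc N.card * b = ∑ x ∈ N, b := by rw [Finset.sum_const, smul_eq_mul]
        _ ≤ ∑ x ∈ N, ((h : Perm Ω).support.filter (fun z => π z = x)).card := by
            apply Finset.sum_le_sum
            intro x hx
            rw [hb, hfib x₀ x]
            apply Finset.card_le_card
            intro z hz
            simp only [Finset.mem_filter, Finset.mem_univ, true_and, Perm.mem_support] at hz ⊢
            refine ⟨fun hzz => ?_, hz⟩
            have := hequiv h z
            rw [hzz, hz] at this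
            simp only [hN, Finset.mem_filter, Finset.mem_univ, true_and] at hx
            exact hx this.symm
        _ ≤ _ := Finset.sum_le_sum_of_subset (Finset.subset_univ _)
    rw [hΩc]
    calc Fintype.card (H ⧸ M) * b ≤ (2 * N.card) * b := Nat.mul_le_mul_right _ (by omega)
      _ = 2 * (N.card * b) := by ring
      _ ≤ _ := Nat.mul_le_mul_left _ hsupp

end Pool.Agent.R674.SI
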