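import Mathlib
import Pool.Agent.R674.SI.Decomp

/-!
# Restriction to fibres, order bound, support generating function
-/

namespace Pool.Agent.R674.SI

open Equiv

section Restr

variable {Ω : Type} [Fintype Ω] [DecidableEq Ω]

/-- the stabilizer of a predicate -/
def Stab (p : Ω → Prop) : Subgroup (Perm Ω) where
  carrier := {σ | ∀ a, p (σ a) ↔ p a}
  one_mem' := fun a => Iff.rfl
  mul_mem' := fun {σ τ} hσ hτ a => by
    rw [Perm.mul_apply]
    exact (hσ (τ a)).trans (hτ a)
  inv_mem' := fun {σ} hσ a => by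
    have := hσ (σ⁻¹ a)
    rw [show σ (σ⁻¹ a) = a by simp] at this
    exact this.symm

/-- restriction -/
def restr (p : Ω → Prop) : Stab p →* Perm {a // p a} where
  toFun σ := (σ : Perm Ω).subtypePerm (fun a => (σ.2 a))
  map_one' := by
    ext a
    rfl
  map_mul' σ τ := by
    ext a
    rfl

omit [Fintype Ω] [DecidableEq Ω] in
theorem restr_apply (p : Ω → Prop) (σ : Stab p) (a : {a // p a}) :
    ((restr p σ a : {a // p a}) : Ω) = (σ : Perm Ω) a := rfl

/-- the group induced by the stabilizer in `H` of the predicate `p` on `{a // p a}` -/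
def ind (H : Subgroup (Perm Ω)) (p : Ω → Prop) : Subgroup (Perm {a // p a}) :=
  (H.subgroupOf (Stab p)).map (restr p)

omit [Fintype Ω] [DecidableEq Ω] in
theorem mem_ind {H : Subgroup (Perm Ω)} {p : Ω → Prop} {τ : Perm {a // p a}} :
    τ ∈ ind H p ↔ ∃ σ ∈ H, ∃ hσ : σ ∈ Stab p, restr p ⟨σ, hσ⟩ = τ := by
  unfold ind
  rw [Subgroup.mem_map]
  constructor
  · rintro ⟨σ, hσ, rfl⟩
    exact ⟨σ, hσ, σ.2, rfl⟩
  · rintro ⟨σ, hσ, hσ', rfl⟩
    exact ⟨⟨σ, hσ'⟩, hσ, rfl⟩

instance ind_solvable (H : Subgroup (Perm Ω)) [hH : Group.IsSolvable H] (p : Ω → Prop) :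
    Group.IsSolvable (ind H p) := by
  have h1 : Group.IsSolvable (H.subgroupOf (Stab p)) := by
    let f : H.subgroupOf (Stab p) →* H :=
      { toFun := fun σ => ⟨((σ : Stab p) : Perm Ω), σ.2⟩
        map_one' := rfl
        map_mul' := fun σ τ => rfl }
    apply Group.isSolvable_of_isSolvable_injective (f := f)
    intro σ τ h
    apply Subtype.ext
    apply Subtype.ext
    exact congrArg (fun z : H => (z : Perm Ω)) h
  let g : H.subgroupOf (Stab p) →* ind H p :=
    { toFun := fun σ => ⟨restr p σ, ⟨σ, σ.2, rfl⟩⟩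
      map_one' := by
        apply Subtype.ext
        simp
      map_mul' := fun σ τ => by
        apply Subtype.ext
        simp }
  apply Group.isSolvable_of_surjective (f := g)
  rintro ⟨τ, σ, hσ, rfl⟩
  exact ⟨⟨σ, hσ⟩, rfl⟩

end Restr

section Kernel

variable {Ω X : Type} [Fintype Ω] [DecidableEq Ω] [Fintype X] [DecidableEq X]

theorem stab_of_fib {π : Ω → X} {σ : Perm Ω} (h : ∀ a, π (σ a) = π a) (x : X) :
    σ ∈ Stab (fun a => π a = x) := fun a => by
  change π (σ a) = x ↔ π a = x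
  rw [h a]

/-- restrictions of an element preserving the fibres -/
noncomputable def rs (π : Ω → X) (σ : Perm Ω) (h : ∀ a, π (σ a) = π a) (x : X) :
    Perm {a // π a = x} :=
  restr (fun a => π a = x) ⟨σ, stab_of_fib h x⟩

theorem rs_apply (π : Ω → X) (σ : Perm Ω) (h : ∀ a, π (σ a) = π a) (x : X)
    (a : {a // π a = x}) : ((rs π σ h x a : {a // π a = x}) : Ω) = σ a := rfl

theorem rs_inj (π : Ω → X) (σ τ : Perm Ω) (h : ∀ a, π (σ a) = π a) (h' : ∀ a, π (τ a) = π a)
    (he : ∀ x, rs π σ h x = rs π τ h' x) : σ = τ := by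
  ext a
  have := congrArg (fun z : Perm {b // π b = π a} => ((z ⟨a, rfl⟩ : {b // π b = π a}) : Ω))
    (he (π a))
  exact this

theorem supp_rs (π : Ω → X) (σ : Perm Ω) (h : ∀ a, π (σ a) = π a) :
    σ.support.card = ∑ x, (rs π σ h x).support.card := by
  rw [Finset.card_eq_sum_card_fiberwise (f := π) (t := Finset.univ)
    (fun x _ => Finset.mem_univ _)]
  apply Finset.sum_congr rfl
  intro x _
  symm
  apply Finset.card_bij (fun (a : {a // π a = x}) (_ : a ∈ (rs π σ h x).support) => (a : Ω))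
  · intro a ha
    rw [Perm.mem_support] at ha
    rw [Finset.mem_filter, Perm.mem_support]
    exact ⟨fun h' => ha (Subtype.ext h'), a.2⟩
  · intro a _ b _ hab
    exact Subtype.ext hab
  · intro b hb
    rw [Finset.mem_filter, Perm.mem_support] at hb
    refine ⟨⟨b, hb.2⟩, ?_, rfl⟩
    rw [Perm.mem_support]
    intro h'
    exact hb.1 (congrArg Subtype.val h')

open Classical in
/-- support generating function of `H` -/
noncomputable def FH (H : Subgroup (Perm Ω)) (t : ℝ) : ℝ :=
  ∑ g ∈ Finset.univ.filter (fun g : Perm Ω => g ∈ H), t ^ g.support.card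

open Classical in
theorem kernel_sum (H : Subgroup (Perm Ω)) (π : Ω → X) (t : ℝ) (ht : 0 ≤ t) :
    ∑ g ∈ Finset.univ.filter (fun g : Perm Ω => g ∈ H ∧ ∀ a, π (g a) = π a),
      t ^ g.support.card ≤ ∏ x, FH (ind H (fun a => π a = x)) t := by
  unfold FH
  rw [Finset.prod_univ_sum]
  let Φ : Perm Ω → (∀ x : X, Perm {a // π a = x}) := fun g =>
    if h : ∀ a, π (g a) = π a then rs π g h else fun _ => 1
  have hΦ : Set.InjOn Φ (Finset.univ.filter (fun g : Perm Ω => g ∈ H ∧ ∀ a, π (g a) = π a)) := by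
    intro g hg g' hg' he
    simp only [Finset.coe_filter, Finset.mem_univ, true_and, Set.mem_ofPred_eq] at hg hg'
    simp only [Φ, dif_pos hg.2, dif_pos hg'.2] at he
    exact rs_inj π g g' hg.2 hg'.2 (fun x => congrFun he x)
  have h1 : ∑ g ∈ Finset.univ.filter (fun g : Perm Ω => g ∈ H ∧ ∀ a, π (g a) = π a),
      t ^ g.support.card =
      ∑ g ∈ Finset.univ.filter (fun g : Perm Ω => g ∈ H ∧ ∀ a, π (g a) = π a),
        ∏ x, t ^ (Φ g x).support.card := by
    apply Finset.sum_congr rfl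
    intro g hg
    simp only [Finset.mem_filter, Finset.mem_univ, true_and] at hg
    rw [Finset.prod_pow_eq_pow_sum, supp_rs π g hg.2]
    simp only [Φ, dif_pos hg.2]
  rw [h1, ← Finset.sum_image (f := fun φ : (∀ x : X, Perm {a // π a = x}) =>
    ∏ x, t ^ (φ x).support.card) hΦ]
  apply Finset.sum_le_sum_of_subset_of_nonneg
  · intro φ hφ
    rw [Finset.mem_image] at hφ
    obtain ⟨g, hg, rfl⟩ := hφ
    simp only [Finset.mem_filter, Finset.mem_univ, true_and] at hg
    rw [Fintype.mem_piFinset]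
    intro x
    simp only [Finset.mem_filter, Finset.mem_univ, true_and, Φ, dif_pos hg.2]
    exact mem_ind.2 ⟨g, hg.1, stab_of_fib hg.2 x, rfl⟩
  · intro φ _ _
    apply Finset.prod_nonneg
    intro x _
    positivity

theorem FH_one (H : Subgroup (Perm Ω)) : FH H 1 = Nat.card H := by
  classical
  unfold FH
  simp only [one_pow, Finset.sum_const, nsmul_eq_mul, mul_one]
  rw [Nat.card_eq_fintype_card, Fintype.card_subtype]

end Kernel

end Pool.Agent.R674.SI
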