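import Mathlib
import Pool.Agent.R674.SI.Fib

/-!
# Order bound, generating function bound, asymmetric colourings, orbits
-/

namespace Pool.Agent.R674.SI

open Equiv

section Aux

variable {Ω X : Type} [Fintype Ω] [DecidableEq Ω] [Fintype X] [DecidableEq X]

theorem sum_fib (π : Ω → X) : ∑ x, Fintype.card {a // π a = x} = Fintype.card Ω := by
  rw [← Fintype.card_sigma]
  exact Fintype.card_congr (Equiv.sigmaFiberEquiv π)

theorem fib_pos {π : Ω → X} (h : Function.Surjective π) (x : X) :
    1 ≤ Fintype.card {a // π a = x} := by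
  obtain ⟨a, ha⟩ := h x
  exact Fintype.card_pos_iff.2 ⟨⟨a, ha⟩⟩

theorem fib_lt {π : Ω → X} (h : Function.Surjective π) (hX : 2 ≤ Fintype.card X) (x : X) :
    Fintype.card {a // π a = x} < Fintype.card Ω := by
  have : Nontrivial X := Fintype.one_lt_card_iff_nontrivial.1 hX
  obtain ⟨y, hy⟩ := exists_ne x
  obtain ⟨b, hb⟩ := h y
  exact Fintype.card_subtype_lt (x := b) (fun hbx => hy (hb ▸ hbx))

end Aux

theorem order_bound (n : ℕ) : ∀ {Ω : Type} [Fintype Ω] [DecidableEq Ω], Fintype.card Ω = n →
    1 ≤ n → ∀ (H : Subgroup (Perm Ω)) [Group.IsSolvable H], Nat.card H ≤ 16 ^ (n - 1) := by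
  induction n using Nat.strong_induction_on with
  | _ n ih =>
    intro Ω _ _ hn hn1 H _
    classical
    rcases Nat.lt_or_ge n 2 with h | h
    · have : n = 1 := by omega
      subst this
      have : Subsingleton Ω := Fintype.card_le_one_iff_subsingleton.1 hn.le
      have hs : Subsingleton H := ⟨fun a b => Subtype.ext (Equiv.ext fun x => Subsingleton.elim _ _)⟩
      simpa using Fintype.card_le_one_iff_subsingleton.2 hs
    · obtain ⟨X, _, _, π, ρ, h1, h2, h3, h4, h5, h6⟩ := decomp H (hn ▸ h)
      have e1 : Nat.card H = Nat.card ρ.ker * Nat.card ρ.range := by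
        rw [← Subgroup.card_mul_index ρ.ker, Subgroup.index_ker]
      have e2 : Nat.card ρ.ker ≤ (Finset.univ.filter
          (fun g : Perm Ω => g ∈ H ∧ ∀ a, π (g a) = π a)).card := by
        rw [← Fintype.card_subtype, ← Nat.card_eq_fintype_card]
        apply Nat.card_le_card_of_injective (fun g : ρ.ker =>
          (⟨((g : H) : Perm Ω), (g : H).2, fun a => by
            rw [h2, MonoidHom.mem_ker.1 g.2]; rfl⟩ :
              {g : Perm Ω // g ∈ H ∧ ∀ a, π (g a) = π a}))
        intro g g' hg
        apply Subtype.ext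
        apply Subtype.ext
        exact congrArg (fun z : {g : Perm Ω // g ∈ H ∧ ∀ a, π (g a) = π a} => (z : Perm Ω)) hg
      have e3 := kernel_sum H π 1 zero_le_one
      simp only [one_pow, Finset.sum_const, nsmul_eq_mul, mul_one, FH_one] at e3
      have e4 : (Finset.univ.filter (fun g : Perm Ω => g ∈ H ∧ ∀ a, π (g a) = π a)).card ≤
          ∏ x, Nat.card (ind H (fun a => π a = x)) := by exact_mod_cast e3
      have e5 : ∏ x, Nat.card (ind H (fun a => π a = x)) ≤
          ∏ x, 16 ^ (Fintype.card {a // π a = x} - 1) := by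
        apply Finset.prod_le_prod' 
        intro x _
        exact ih _ (hn ▸ fib_lt h1 h3 x) rfl (fib_pos h1 x) _
      rw [Finset.prod_pow_eq_pow_sum] at e5
      have e6 : ∑ x, (Fintype.card {a // π a = x} - 1) + Fintype.card X = n := by
        rw [← hn, ← sum_fib π, ← Finset.card_univ (α := X), Finset.card_eq_sum_ones,
          ← Finset.sum_add_distrib]
        apply Finset.sum_congr rfl
        intro x _
        have := fib_pos h1 x
        omega
      rw [e1]
      calc Nat.card ρ.ker * Nat.card ρ.range
          ≤ 16 ^ (∑ x, (Fintype.card {a // π a = x} - 1)) * 16 ^ (Fintype.card X - 1) :=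
            Nat.mul_le_mul (e2.trans (e4.trans e5)) h5
        _ = 16 ^ (n - 1) := by rw [← pow_add]; congr 1; omega

/-- the constant in the generating function bound -/
def cc : ℝ := 2 ^ 34

theorem FH_small {Ω : Type} [Fintype Ω] [DecidableEq Ω] (H : Subgroup (Perm Ω)) (t : ℝ)
    (ht : 0 ≤ t) (ht1 : t ≤ 1) : FH H t ≤ 1 + (Fintype.card Ω).factorial * t ^ 2 := by
  classical
  unfold FH
  have h1 : ∀ g ∈ Finset.univ.filter (fun g : Perm Ω => g ∈ H),
      t ^ g.support.card ≤ (if g = 1 then 1 else 0) + t ^ 2 := by
    intro g _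
    by_cases hg : g = 1
    · subst hg
      simp
      positivity
    · rw [if_neg hg, zero_add]
      apply pow_le_pow_of_le_one ht ht1
      exact Perm.two_le_card_support_of_ne_one hg
  refine (Finset.sum_le_sum h1).trans ?_
  rw [Finset.sum_add_distrib, Finset.sum_const, nsmul_eq_mul]
  have h2 : ∑ g ∈ Finset.univ.filter (fun g : Perm Ω => g ∈ H), (if g = 1 then (1 : ℝ) else 0) ≤ 1 := by
    rw [Finset.sum_ite_eq']
    split_ifs <;> norm_num
  have h3 : ((Finset.univ.filter (fun g : Perm Ω => g ∈ H)).card : ℝ) ≤
      (Fintype.card Ω).factorial := by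
    have := Finset.card_le_univ (Finset.univ.filter (fun g : Perm Ω => g ∈ H))
    rw [Fintype.card_perm] at this
    exact_mod_cast this
  have h4 : 0 ≤ t ^ 2 := by positivity
  nlinarith

theorem FH_le_card {Ω : Type} [Fintype Ω] [DecidableEq Ω] (H : Subgroup (Perm Ω)) (t : ℝ)
    (ht : 0 ≤ t) (ht1 : t ≤ 1) : FH H t ≤ Nat.card H := by
  classical
  rw [← FH_one]
  unfold FH
  apply Finset.sum_le_sum
  intro g _
  exact pow_le_pow_left₀ ht ht1 _

theorem FH_bound (n : ℕ) : ∀ {Ω : Type} [Fintype Ω] [DecidableEq Ω], Fintype.card Ω = n →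
    1 ≤ n → ∀ (H : Subgroup (Perm Ω)) [Group.IsSolvable H] (t : ℝ), 0 ≤ t → t ≤ 1 →
    FH H t ≤ Real.exp ((cc * n - 1) * t ^ 2) := by
  induction n using Nat.strong_induction_on with
  | _ n ih =>
    intro Ω _ _ hn hn1 H _ t ht ht1
    classical
    have hn1' : (1 : ℝ) ≤ n := by exact_mod_cast hn1
    have ht2 : 0 ≤ t ^ 2 := by positivity
    rcases Nat.lt_or_ge n 8 with h8 | h8
    · -- small degree
      have h1 := FH_small H t ht ht1
      have h2 : ((Fintype.card Ω).factorial : ℝ) ≤ 5040 := by
        have : (Fintype.card Ω).factorial ≤ Nat.factorial 7 :=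
          Nat.factorial_le (by omega)
        have h7 : Nat.factorial 7 = 5040 := by decide
        rw [h7] at this
        exact_mod_cast this
      calc FH H t ≤ 1 + (Fintype.card Ω).factorial * t ^ 2 := h1
        _ ≤ 5040 * t ^ 2 + 1 := by nlinarith
        _ ≤ Real.exp (5040 * t ^ 2) := Real.add_one_le_exp _
        _ ≤ Real.exp ((cc * n - 1) * t ^ 2) := by
            apply Real.exp_le_exp.2
            apply mul_le_mul_of_nonneg_right _ ht2
            unfold cc
            nlinarith
    rcases lt_or_ge ((2 : ℝ) ^ (-16 : ℤ)) t with hbig | hsmall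
    · have h1 := FH_le_card H t ht ht1
      have h2 := order_bound n hn hn1 H
      have h3 : (Nat.card H : ℝ) ≤ 16 ^ (n - 1) := by exact_mod_cast h2
      have h4 : (16 : ℝ) ^ (n - 1) ≤ Real.exp (3 * n) := by
        have e1 : (16 : ℝ) ≤ Real.exp 3 := by
          have := Real.exp_one_gt_d9
          have e2 : Real.exp 3 = Real.exp 1 ^ 3 := by
            rw [← Real.exp_nat_mul]; norm_num
          rw [e2]
          have e3 : (2.7 : ℝ) ^ 3 ≤ Real.exp 1 ^ 3 := pow_le_pow_left₀ (by norm_num) (by linarith) 3
          norm_num at e3 ⊢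
          linarith
        calc (16 : ℝ) ^ (n - 1) ≤ Real.exp 3 ^ (n - 1) := pow_le_pow_left₀ (by norm_num) e1 _
          _ ≤ Real.exp 3 ^ n := pow_le_pow_right₀ (by linarith) (by omega)
          _ = Real.exp (3 * n) := by rw [← Real.exp_nat_mul]; ring_nf
      have h5 : (2 : ℝ) ^ (-16 : ℤ) ^ 1 = (2 : ℝ) ^ (-16 : ℤ) := by norm_num
      have h6 : (2 : ℝ) ^ (-32 : ℤ) ≤ t ^ 2 := by
        have : ((2 : ℝ) ^ (-16 : ℤ)) ^ 2 ≤ t ^ 2 := pow_le_pow_left₀ (by positivity) hbig.le 2
        have e : ((2 : ℝ) ^ (-16 : ℤ)) ^ 2 = (2 : ℝ) ^ (-32 : ℤ) := by norm_num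
        rwa [e] at this
      calc FH H t ≤ Real.exp (3 * n) := h1.trans (h3.trans h4)
        _ ≤ Real.exp ((cc * n - 1) * t ^ 2) := by
            apply Real.exp_le_exp.2
            have h7 : (cc * n - 1) * (2 : ℝ) ^ (-32 : ℤ) ≤ (cc * n - 1) * t ^ 2 := by
              apply mul_le_mul_of_nonneg_left h6
              unfold cc; nlinarith
            refine le_trans ?_ h7
            unfold cc
            norm_num
            nlinarith
    · obtain ⟨X, _, _, π, ρ, h1, h2, h3, h4, h5, h6⟩ := decomp H (by omega)
      have k1 := kernel_sum H π t ht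
      have k2 : ∏ x, FH (ind H (fun a => π a = x)) t ≤ Real.exp ((cc * n - 2) * t ^ 2) := by
        calc ∏ x, FH (ind H (fun a => π a = x)) t
            ≤ ∏ x, Real.exp ((cc * (Fintype.card {a // π a = x} : ℝ) - 1) * t ^ 2) := by
              apply Finset.prod_le_prod
              · intro x _
                unfold FH
                apply Finset.sum_nonneg
                intro g _
                positivity
              · intro x _
                exact ih _ (hn ▸ fib_lt h1 h3 x) rfl (fib_pos h1 x) _ t ht ht1
          _ = Real.exp ((cc * n - Fintype.card X) * t ^ 2) := by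
              rw [← Real.exp_sum]
              congr 1
              rw [← Finset.sum_mul, Finset.sum_sub_distrib, ← Finset.mul_sum]
              congr 1
              have := sum_fib π
              rw [hn] at this
              have e : ∑ x, (Fintype.card {a // π a = x} : ℝ) = n := by exact_mod_cast this
              rw [e]
              simp
          _ ≤ Real.exp ((cc * n - 2) * t ^ 2) := by
              apply Real.exp_le_exp.2
              apply mul_le_mul_of_nonneg_right _ ht2
              have : (2 : ℝ) ≤ Fintype.card X := by exact_mod_cast h3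
              linarith
      -- the remaining elements
      have k3 : FH H t ≤ ∑ g ∈ Finset.univ.filter (fun g : Perm Ω => g ∈ H ∧ ∀ a, π (g a) = π a),
          t ^ g.support.card + ∑ g ∈ Finset.univ.filter (fun g : Perm Ω => g ∈ H ∧
            n ≤ 2 * g.support.card), t ^ g.support.card := by
        unfold FH
        rw [← Finset.sum_union_inter]
        have hsub : Finset.univ.filter (fun g : Perm Ω => g ∈ H) ⊆
            Finset.univ.filter (fun g : Perm Ω => g ∈ H ∧ ∀ a, π (g a) = π a) ∪
            Finset.univ.filter (fun g : Perm Ω => g ∈ H ∧ n ≤ 2 * g.support.card) := by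
          intro g hg
          simp only [Finset.mem_filter, Finset.mem_univ, true_and] at hg
          simp only [Finset.mem_union, Finset.mem_filter, Finset.mem_univ, true_and]
          rcases h4 ⟨g, hg⟩ with h7 | h7
          · left
            refine ⟨hg, fun a => ?_⟩
            have := h2 ⟨g, hg⟩ a
            rw [h7] at this
            exact this
          · right
            exact ⟨hg, hn ▸ h7⟩
        have := Finset.sum_le_sum_of_subset_of_nonneg (f := fun g : Perm Ω => t ^ g.support.card)
          hsub (fun g _ _ => by positivity)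
        refine this.trans (le_add_of_nonneg_right (Finset.sum_nonneg (fun g _ => by positivity)))
      have k4 : ∑ g ∈ Finset.univ.filter (fun g : Perm Ω => g ∈ H ∧ n ≤ 2 * g.support.card),
          t ^ g.support.card ≤ t ^ 2 := by
        have e1 : ∀ g ∈ Finset.univ.filter (fun g : Perm Ω => g ∈ H ∧ n ≤ 2 * g.support.card),
            t ^ g.support.card ≤ t ^ 2 / 16 ^ n := by
          intro g hg
          simp only [Finset.mem_filter, Finset.mem_univ, true_and] at hg
          set s := g.support.card
          rw [le_div_iff₀ (by positivity)]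
          have e2 : (16 : ℝ) ^ n ≤ 256 ^ s := by
            calc (16 : ℝ) ^ n ≤ 16 ^ (2 * s) := pow_le_pow_right₀ (by norm_num) hg.2
              _ = 256 ^ s := by rw [pow_mul]; norm_num
          have e3 : 256 * t ≤ 1 := by
            norm_num at hsmall
            linarith
          calc t ^ s * 16 ^ n ≤ t ^ s * 256 ^ s := mul_le_mul_of_nonneg_left e2 (by positivity)
            _ = (256 * t) ^ s := by rw [mul_pow]; ring
            _ ≤ (256 * t) ^ 4 := pow_le_pow_of_le_one (by positivity) e3 (by omega)
            _ = 2 ^ 32 * t ^ 2 * t ^ 2 := by ring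
            _ ≤ 1 * t ^ 2 := by
                apply mul_le_mul_of_nonneg_right _ ht2
                have e4 : t ^ 2 ≤ ((2 : ℝ) ^ (-16 : ℤ)) ^ 2 := pow_le_pow_left₀ ht hsmall 2
                norm_num at e4
                linarith
            _ = t ^ 2 := one_mul _
        refine (Finset.sum_le_sum e1).trans ?_
        rw [Finset.sum_const, nsmul_eq_mul]
        have e5 : ((Finset.univ.filter (fun g : Perm Ω => g ∈ H ∧
            n ≤ 2 * g.support.card)).card : ℝ) ≤ 16 ^ n := by
          have e6 : (Finset.univ.filter (fun g : Perm Ω => g ∈ H ∧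
              n ≤ 2 * g.support.card)).card ≤ Nat.card H := by
            rw [Nat.card_eq_fintype_card, Fintype.card_subtype]
            exact Finset.card_le_card (fun g hg => by
              simp only [Finset.mem_filter, Finset.mem_univ, true_and] at hg ⊢
              exact hg.1)
          have e7 := order_bound n hn hn1 H
          have e8 : (16 : ℕ) ^ (n - 1) ≤ 16 ^ n := Nat.pow_le_pow_right (by norm_num) (by omega)
          exact_mod_cast e6.trans (e7.trans e8)
        have e9 : (0 : ℝ) < 16 ^ n := by positivity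
        calc _ ≤ (16 : ℝ) ^ n * (t ^ 2 / 16 ^ n) := mul_le_mul_of_nonneg_right e5 (by positivity)
          _ = t ^ 2 := by field_simp
      have k5 : 1 ≤ Real.exp ((cc * n - 2) * t ^ 2) := by
        apply Real.one_le_exp
        apply mul_nonneg _ ht2
        unfold cc; nlinarith
      calc FH H t ≤ Real.exp ((cc * n - 2) * t ^ 2) + t ^ 2 := k3.trans (add_le_add (k1.trans k2) k4)
        _ ≤ Real.exp ((cc * n - 2) * t ^ 2) * (t ^ 2 + 1) := by nlinarith
        _ ≤ Real.exp ((cc * n - 2) * t ^ 2) * Real.exp (t ^ 2) :=
            mul_le_mul_of_nonneg_left (Real.add_one_le_exp _) (Real.exp_pos _).le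
        _ = Real.exp ((cc * n - 1) * t ^ 2) := by rw [← Real.exp_add]; ring_nf

end Pool.Agent.R674.SI
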