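import Mathlib
import Pool.Agent.R674.SI.Bound

/-!
# Asymmetric colourings of soluble groups, orbits of groups generated by small elements
-/

namespace Pool.Agent.R674.SI

open Equiv

theorem rs_one {Ω X : Type} [Fintype Ω] [DecidableEq Ω] [Fintype X] [DecidableEq X]
    (π : Ω → X) (x : X) : rs π 1 (fun _ => rfl) x = 1 := by
  ext a
  rfl

theorem DCl_all (n : ℕ) : ∀ {Ω : Type} [Fintype Ω] [DecidableEq Ω], Fintype.card Ω = n →
    1 ≤ n → ∀ (H : Subgroup (Perm Ω)) [Group.IsSolvable H], DCl H := by
  induction n using Nat.strong_induction_on with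
  | _ n ih =>
    intro Ω _ _ hn hn1 H _
    classical
    rcases Nat.lt_or_ge n 2 with h | h
    · have : n = 1 := by omega
      subst this
      have hss : Subsingleton Ω := Fintype.card_le_one_iff_subsingleton.1 hn.le
      have hne : Nonempty Ω := Fintype.card_pos_iff.1 (by omega)
      obtain ⟨a⟩ := hne
      exact ⟨fun i _ => i, fun i j h _ hc => ⟨hc a, Equiv.ext fun x => Subsingleton.elim _ _⟩⟩
    · obtain ⟨X, _, _, π, ρ, h1, h2, h3, h4, h5, h6⟩ := decomp H (hn ▸ h)
      have hXne : Nonempty X := Fintype.card_pos_iff.1 (by omega)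
      have hD : ∀ x, DCl (ind H (fun a => π a = x)) := fun x =>
        ih _ (hn ▸ fib_lt h1 h3 x) rfl (fib_pos h1 x) _
      have hq : 0 < qq := by unfold qq; positivity
      rcases h6 with h6 | ⟨h6, ct, hct⟩
      · choose cx hcx using hD
        let C : X → Fin qq → Ω → Fin qq := fun x i b =>
          if hb : π b = x then cx x i ⟨b, hb⟩ else ⟨0, hq⟩
        refine ⟨fun i a => C (π a) i a, ?_⟩
        intro i j h hh hc
        have hπ : ∀ a, π (h a) = π a := by
          intro a
          have := h2 ⟨h, hh⟩ a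
          rw [h6] at this
          exact this
        have key : ∀ x, i = j ∧ rs π h hπ x = 1 := by
          intro x
          apply hcx x i j (rs π h hπ x) (mem_ind.2 ⟨h, hh, stab_of_fib hπ x, rfl⟩)
          intro b
          have e := hc b
          have e1 : π (h b) = x := (hπ b).trans b.2
          simp only [C] at e
          rw [dif_pos trivial, dif_pos trivial] at e
          have e2 : ∀ y (hy : π (b : Ω) = y) (hy' : π (h b) = y), cx y i ⟨h b, hy'⟩ = cx y j ⟨b, hy⟩ := by
            intro y hy hy'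
            subst hy
            have e3 : ∀ z (hz : π (h b) = z), cx (π (h b)) i ⟨h b, rfl⟩ = cx z i ⟨h b, hz⟩ := by
              intro z hz
              subst hz
              rfl
            rw [← e3 _ hy', e]
          exact e2 x b.2 e1
        obtain ⟨x⟩ := hXne
        refine ⟨(key x).1, ?_⟩
        apply rs_inj π h 1 hπ (fun _ => rfl)
        intro y
        rw [(key y).2, rs_one]
      · obtain ⟨x₀⟩ := hXne
        obtain ⟨cb, hcb⟩ := hD x₀
        choose g hg using h6 x₀
        let B : Fin qq → Ω → Fin qq := fun i b =>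
          if hb : π b = x₀ then cb i ⟨b, hb⟩ else ⟨0, hq⟩
        refine ⟨fun i a => B (ct i (π a)) ((g (π a) : Perm Ω)⁻¹ a), ?_⟩
        intro i j h hh hc
        have hinv : ∀ x a, π a = x → π ((g x : Perm Ω)⁻¹ a) = x₀ := by
          intro x a ha
          have e := h2 (g x)⁻¹ a
          rw [Subgroup.coe_inv] at e
          rw [e, map_inv, Perm.inv_eq_iff_eq, hg, ha]
        -- for each `x` the element `k`
        have key : ∀ x, ct i (ρ ⟨h, hh⟩ x) = ct j x ∧
            ∀ b, π b = x₀ → (g (ρ ⟨h, hh⟩ x) : Perm Ω)⁻¹ (h ((g x : Perm Ω) b)) = b := by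
          intro x
          set y := ρ ⟨h, hh⟩ x with hy
          let k : H := (g y)⁻¹ * (⟨h, hh⟩ * g x)
          have hk : ρ k x₀ = x₀ := by
            rw [map_mul, map_mul, map_inv, Perm.mul_apply, Perm.mul_apply, hg, Perm.inv_eq_iff_eq,
              hg]
          have hkS : (k : Perm Ω) ∈ Stab (fun a => π a = x₀) := by
            intro a
            change π ((k : Perm Ω) a) = x₀ ↔ π a = x₀
            rw [h2]
            constructor
            · intro e
              exact (ρ k).injective (e.trans hk.symm)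
            · intro e
              rw [e, hk]
          have hkapp : ∀ b, (k : Perm Ω) b = (g y : Perm Ω)⁻¹ (h ((g x : Perm Ω) b)) := fun b => rfl
          have := hcb (ct i y) (ct j x) (restr _ ⟨k, hkS⟩) (mem_ind.2 ⟨k, k.2, hkS, rfl⟩) (by
            intro b
            have e : B (ct i (π (h ((g x : Perm Ω) b)))) ((g (π (h ((g x : Perm Ω) b))) : Perm Ω)⁻¹
                (h ((g x : Perm Ω) b))) =
                B (ct j (π ((g x : Perm Ω) b))) ((g (π ((g x : Perm Ω) b)) : Perm Ω)⁻¹
                ((g x : Perm Ω) b)) := hc ((g x : Perm Ω) b)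
            have hπa : π ((g x : Perm Ω) b) = x := by rw [h2, b.2, hg]
            have hπha : π (h ((g x : Perm Ω) b)) = y := by
              have := h2 ⟨h, hh⟩ ((g x : Perm Ω) b)
              rw [hπa] at this
              exact this
            rw [hπa, hπha] at e
            have e1 : (g x : Perm Ω)⁻¹ ((g x : Perm Ω) b) = b := by simp
            rw [e1, ← hkapp] at e
            simp only [B] at e
            rw [dif_pos ((hkS b).2 b.2), dif_pos b.2] at e
            exact e)
          refine ⟨this.1, fun b hb => ?_⟩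
          have e := congrArg (fun z : Perm {a // π a = x₀} => ((z ⟨b, hb⟩ : {a // π a = x₀}) : Ω)) this.2
          exact e
        have htop := hct i j (ρ ⟨h, hh⟩) ⟨⟨h, hh⟩, rfl⟩ (fun x => (key x).1)
        refine ⟨htop.1, ?_⟩
        ext a
        have e := (key (π a)).2 ((g (π a) : Perm Ω)⁻¹ a) (hinv _ _ rfl)
        rw [htop.2] at e
        simp only [Perm.coe_one, id_eq] at e
        rw [show (g (π a) : Perm Ω) ((g (π a) : Perm Ω)⁻¹ a) = a by simp] at e
        exact ((g (π a) : Perm Ω)⁻¹).injective e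

/-- orbits of a soluble group generated by elements of small support are small -/
theorem orbit_bound {Ω : Type} [Fintype Ω] [DecidableEq Ω] (H : Subgroup (Perm Ω))
    [Group.IsSolvable H] (s : ℕ) (hs : 1 ≤ s) (T : Set (Perm Ω)) (hT : H = Subgroup.closure T)
    (hTs : ∀ g ∈ T, g.support.card < s) (a : Ω) :
    Nat.card {b // ∃ h : H, (h : Perm Ω) a = b} ≤ 2 * s := by
  classical
  by_contra hcon
  push Not at hcon
  rw [Nat.card_eq_fintype_card] at hcon
  let p : Ω → Prop := fun b => ∃ h : H, (h : Perm Ω) a = b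
  have hp : ∀ g ∈ H, g ∈ Stab p := by
    intro g hg b
    constructor
    · rintro ⟨k, hk⟩
      refine ⟨⟨g, hg⟩⁻¹ * k, ?_⟩
      rw [Subgroup.coe_mul, Perm.mul_apply, hk]
      simp
    · rintro ⟨k, hk⟩
      exact ⟨⟨g, hg⟩ * k, by rw [Subgroup.coe_mul, Perm.mul_apply, hk]⟩
  have hcard : 2 ≤ Fintype.card {b // p b} := by
    have : Fintype.card {b // p b} = Fintype.card {b // ∃ h : H, (h : Perm Ω) a = b} := by
      congr
    omega
  obtain ⟨X, _, _, π, ρ, h1, h2, h3, h4, h5, h6⟩ := decomp (ind H p) hcard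
  let φ₀ : H →* ind H p :=
    { toFun := fun g => ⟨restr p ⟨g, hp g g.2⟩, mem_ind.2 ⟨g, g.2, hp g g.2, rfl⟩⟩
      map_one' := by
        apply Subtype.ext
        exact map_one (restr p)
      map_mul' := fun g g' => by
        apply Subtype.ext
        exact map_mul (restr p) ⟨g, hp g g.2⟩ ⟨g', hp g' g'.2⟩ }
  let φ : H →* Perm X := ρ.comp φ₀
  -- some generator acts nontrivially
  have hex : ∃ g ∈ T, ∃ hg : g ∈ H, φ ⟨g, hg⟩ ≠ 1 := by
    by_contra hall
    push Not at hall
    have hker : ∀ g (hg : g ∈ H), φ ⟨g, hg⟩ = 1 := by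
      have : H ≤ (φ.ker).map H.subtype := by
        conv_lhs => rw [hT]
        rw [Subgroup.closure_le]
        intro g hg
        have hgH : g ∈ H := by rw [hT]; exact Subgroup.subset_closure hg
        exact ⟨⟨g, hgH⟩, MonoidHom.mem_ker.2 (hall g hg hgH), rfl⟩
      intro g hg
      obtain ⟨g', hg', rfl⟩ := this hg
      exact MonoidHom.mem_ker.1 hg'
    have hnt : Nontrivial X := Fintype.one_lt_card_iff_nontrivial.1 h3
    obtain ⟨x, y, hxy⟩ := exists_pair_ne X
    obtain ⟨⟨b, k, hk⟩, rfl⟩ := h1 x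
    obtain ⟨⟨c, k', hk'⟩, rfl⟩ := h1 y
    apply hxy
    have e := h2 (φ₀ (k' * k⁻¹)) ⟨b, k, hk⟩
    have e1 : ρ (φ₀ (k' * k⁻¹)) = 1 := hker _ (k' * k⁻¹).2
    rw [e1] at e
    have e2 : ((φ₀ (k' * k⁻¹) : Perm {b // p b}) ⟨b, k, hk⟩) = ⟨c, k', hk'⟩ := by
      apply Subtype.ext
      change ((k' * k⁻¹ : H) : Perm Ω) b = c
      rw [← hk, ← hk']
      simp
    rw [e2] at e
    exact e.symm
  obtain ⟨g, hgT, hg, hgφ⟩ := hex
  have h7 := (h4 (φ₀ ⟨g, hg⟩)).resolve_left hgφ
  have h8 : ((φ₀ ⟨g, hg⟩ : Perm {b // p b})).support.card ≤ g.support.card := by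
    apply Finset.card_le_card_of_injOn (fun b : {b // p b} => (b : Ω))
    · intro b hb
      rw [Finset.mem_coe, Perm.mem_support] at hb ⊢
      exact fun e => hb (Subtype.ext e)
    · exact fun b _ b' _ e => Subtype.ext e
  have h9 := hTs g hgT
  have h10 : Fintype.card {b // p b} = Fintype.card {b // ∃ h : H, (h : Perm Ω) a = b} := by
    congr
  omega

end Pool.Agent.R674.SI
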