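import Mathlib

/-!
# Counting in Young subgroups
-/

namespace Pool.Agent.R674.SI

open Equiv

section Desc

theorem desc_aux (N k : ℕ) (h : k ≤ N) : N ^ k * k.factorial ≤ N.descFactorial k * k ^ k := by
  rw [← Nat.descFactorial_self k, Nat.descFactorial_eq_prod_range, Nat.descFactorial_eq_prod_range]
  calc N ^ k * ∏ i ∈ Finset.range k, (k - i) = ∏ i ∈ Finset.range k, (N * (k - i)) := by
        rw [Finset.prod_mul_distrib, Finset.prod_const, Finset.card_range]
    _ ≤ ∏ i ∈ Finset.range k, ((N - i) * k) := by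
        apply Finset.prod_le_prod'
        intro i hi
        rw [Finset.mem_range] at hi
        rw [Nat.mul_sub, Nat.sub_mul]
        have : i * k ≤ N * i := by rw [mul_comm]; exact Nat.mul_le_mul_right _ h
        omega
    _ = (∏ i ∈ Finset.range k, (N - i)) * k ^ k := by
        rw [Finset.prod_mul_distrib, Finset.prod_const, Finset.card_range]

theorem desc_lower (N k : ℕ) (h : k ≤ N) :
    ((N : ℝ) / Real.exp 1) ^ k ≤ N.descFactorial k := by
  have h1 := desc_aux N k h
  have h2 : (k : ℝ) ^ k / k.factorial ≤ Real.exp k := Real.pow_div_factorial_le_exp k (by positivity) k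
  have h3 : (N : ℝ) ^ k * k.factorial ≤ N.descFactorial k * (k : ℝ) ^ k := by exact_mod_cast h1
  have h4 : (0 : ℝ) < k.factorial := by exact_mod_cast k.factorial_pos
  have h5 : (k : ℝ) ^ k ≤ Real.exp k * k.factorial := by rwa [div_le_iff₀ h4] at h2
  have h6 : Real.exp 1 ^ k = Real.exp k := by rw [← Real.exp_nat_mul]; ring_nf
  rw [div_pow, h6, div_le_iff₀ (Real.exp_pos _)]
  have h7 : (N : ℝ) ^ k * k.factorial ≤ N.descFactorial k * Real.exp k * k.factorial := by
    calc (N : ℝ) ^ k * k.factorial ≤ N.descFactorial k * (k : ℝ) ^ k := h3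
      _ ≤ N.descFactorial k * (Real.exp k * k.factorial) :=
          mul_le_mul_of_nonneg_left h5 (by positivity)
      _ = _ := by ring
  exact le_of_mul_le_mul_right h7 h4

end Desc

variable {Ω κ : Type} [Fintype Ω] [DecidableEq Ω] [Fintype κ] [DecidableEq κ] (χ : Ω → κ)

/-- colour classes -/
def cls (i : κ) : Finset Ω := Finset.univ.filter (fun a => χ a = i)

/-- the Young subgroup, as a finset -/
def WW : Finset (Perm Ω) := Finset.univ.filter (fun w => ∀ a, χ (w a) = χ a)

/-- number of colour preserving injections -/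
def Dsc (S : Finset Ω) : ℕ := ∏ i, (cls χ i).card.descFactorial (S.filter (fun a => χ a = i)).card

theorem mem_WW {w : Perm Ω} : w ∈ WW χ ↔ ∀ a, χ (w a) = χ a := by
  simp [WW]

theorem mem_cls {i : κ} {a : Ω} : a ∈ cls χ i ↔ χ a = i := by
  simp [cls]

theorem Dsc_insert (S : Finset Ω) (a : Ω) (ha : a ∉ S) :
    Dsc χ (insert a S) = Dsc χ S *
      ((cls χ (χ a)).card - (S.filter (fun b => χ b = χ a)).card) := by
  unfold Dsc
  rw [← Finset.mul_prod_erase _ _ (Finset.mem_univ (χ a)),
    ← Finset.mul_prod_erase _ _ (Finset.mem_univ (χ a))]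
  have h1 : ∀ i ∈ Finset.univ.erase (χ a),
      (cls χ i).card.descFactorial ((insert a S).filter (fun b => χ b = i)).card =
      (cls χ i).card.descFactorial (S.filter (fun b => χ b = i)).card := by
    intro i hi
    rw [Finset.mem_erase] at hi
    rw [Finset.filter_insert, if_neg (fun h => hi.1 h.symm)]
  rw [Finset.prod_congr rfl h1, Finset.filter_insert, if_pos rfl,
    Finset.card_insert_of_notMem (by simp [ha]), Nat.descFactorial_succ]
  ring

theorem swap_mem_WW {w : Perm Ω} (hw : w ∈ WW χ) {x y : Ω} (h : χ x = χ y) :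
    swap x y * w ∈ WW χ := by
  rw [mem_WW] at hw ⊢
  intro a
  rw [Perm.mul_apply, ← hw a]
  rcases em (w a = x) with h1 | h1
  · rw [h1, swap_apply_left, h]
  · rcases em (w a = y) with h2 | h2
    · rw [h2, swap_apply_right, h]
    · rw [swap_apply_of_ne_of_ne h1 h2]

theorem young_step (S : Finset Ω) (a : Ω) (ha : a ∉ S) (f : Ω → Ω) :
    ((WW χ).filter (fun w => ∀ b ∈ insert a S, w b = f b)).card *
      ((cls χ (χ a)).card - (S.filter (fun b => χ b = χ a)).card) ≤
    ((WW χ).filter (fun w => ∀ b ∈ S, w b = f b)).card := by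
  classical
  by_cases hne : ((WW χ).filter (fun w => ∀ b ∈ insert a S, w b = f b)).Nonempty
  swap
  · rw [Finset.not_nonempty_iff_eq_empty] at hne
    rw [hne]; simp
  obtain ⟨w₀, hw₀⟩ := hne
  rw [Finset.mem_filter] at hw₀
  obtain ⟨hw₀, hw₀'⟩ := hw₀
  have hfcol : ∀ b ∈ insert a S, χ (f b) = χ b := fun b hb => by
    rw [← hw₀' b hb]; exact (mem_WW χ).1 hw₀ b
  have hfinj : ∀ b ∈ S, f b ≠ f a := by
    intro b hb h
    rw [← hw₀' b (Finset.mem_insert_of_mem hb), ← hw₀' a (Finset.mem_insert_self _ _)] at h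
    exact ha (w₀.injective h ▸ hb)
  set C := cls χ (χ a) \ (S.filter (fun b => χ b = χ a)).image f with hC
  have hCc : (cls χ (χ a)).card - (S.filter (fun b => χ b = χ a)).card ≤ C.card := by
    have h1 := Finset.le_card_sdiff ((S.filter (fun b => χ b = χ a)).image f) (cls χ (χ a))
    have h2 : ((S.filter (fun b => χ b = χ a)).image f).card ≤
      (S.filter (fun b => χ b = χ a)).card := Finset.card_image_le
    rw [hC]
    omega
  refine (Nat.mul_le_mul_left _ hCc).trans ?_
  rw [← Finset.card_product]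
  apply Finset.card_le_card_of_injOn (fun z : Perm Ω × Ω => swap (f a) z.2 * z.1)
  · rintro ⟨w, c⟩ hz
    rw [Finset.mem_coe, Finset.mem_product, Finset.mem_filter] at hz
    obtain ⟨⟨hw, hw'⟩, hc⟩ := hz
    simp only [hC, Finset.mem_sdiff, mem_cls, Finset.mem_image, Finset.mem_filter, not_exists,
      not_and] at hc
    rw [Finset.mem_coe, Finset.mem_filter]
    refine ⟨swap_mem_WW χ hw ((hfcol a (Finset.mem_insert_self _ _)).trans hc.1.symm), ?_⟩
    intro b hb
    simp only [Perm.mul_apply]
    rw [hw' b (Finset.mem_insert_of_mem hb)]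
    apply swap_apply_of_ne_of_ne (hfinj b hb)
    intro h
    apply hc.2 b
    · refine ⟨hb, ?_⟩
      rw [← hfcol b (Finset.mem_insert_of_mem hb), h, hc.1]
    · exact h
  · rintro ⟨w, c⟩ hz ⟨w', c'⟩ hz' he
    rw [Finset.mem_coe, Finset.mem_product, Finset.mem_filter] at hz hz'
    have h1 : (swap (f a) c * w) a = (swap (f a) c' * w') a := by
      simp only at he
      rw [he]
    rw [Perm.mul_apply, Perm.mul_apply, hz.1.2 a (Finset.mem_insert_self _ _),
      hz'.1.2 a (Finset.mem_insert_self _ _), swap_apply_left, swap_apply_left] at h1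
    subst h1
    simp only [mul_right_inj] at he
    subst he
    rfl

theorem young_count (S : Finset Ω) (f : Ω → Ω) :
    ((WW χ).filter (fun w => ∀ b ∈ S, w b = f b)).card * Dsc χ S ≤ (WW χ).card := by
  classical
  induction S using Finset.induction_on with
  | empty =>
    simp [Dsc]
  | insert a S ha ih =>
    rw [Dsc_insert χ S a ha]
    have := young_step χ S a ha f
    calc _ = (((WW χ).filter (fun w => ∀ b ∈ insert a S, w b = f b)).card *
      ((cls χ (χ a)).card - (S.filter (fun b => χ b = χ a)).card)) * Dsc χ S := by ring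
      _ ≤ ((WW χ).filter (fun w => ∀ b ∈ S, w b = f b)).card * Dsc χ S :=
          Nat.mul_le_mul_right _ this
      _ ≤ _ := ih

theorem Dsc_lower (S : Finset Ω) (m : ℕ) (hm : ∀ i, m ≤ (cls χ i).card) :
    ((m : ℝ) / Real.exp 1) ^ S.card ≤ Dsc χ S := by
  have h1 : S.card = ∑ i, (S.filter (fun a => χ a = i)).card :=
    Finset.card_eq_sum_card_fiberwise (fun x _ => Finset.mem_univ _)
  rw [h1, ← Finset.prod_pow_eq_pow_sum]
  unfold Dsc
  push_cast
  apply Finset.prod_le_prod
  · intro i _
    positivity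
  · intro i _
    have h2 : (S.filter (fun a => χ a = i)).card ≤ (cls χ i).card := by
      apply Finset.card_le_card
      intro a ha
      rw [Finset.mem_filter] at ha
      exact (mem_cls χ).2 ha.2
    refine le_trans ?_ (desc_lower _ _ h2)
    apply pow_le_pow_left₀ (by positivity)
    apply div_le_div_of_nonneg_right _ (Real.exp_pos _).le
    exact_mod_cast hm i

theorem Dsc_pos (S : Finset Ω) : 0 < Dsc χ S := by
  unfold Dsc
  apply Finset.prod_pos
  intro i _
  apply Nat.descFactorial_pos.2
  apply Finset.card_le_card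
  intro a ha
  rw [Finset.mem_filter] at ha
  exact (mem_cls χ).2 ha.2

theorem one_mem_WW : (1 : Perm Ω) ∈ WW χ := (mem_WW χ).2 (fun _ => rfl)

/-- two points are rarely mapped into the same class of a relation with small classes -/
theorem pair_count (E : Ω → Ω → Prop) [DecidableRel E] (L : ℕ)
    (hE : ∀ a, (Finset.univ.filter (fun b => E a b)).card ≤ L) (m : ℕ)
    (hm : ∀ i, m ≤ (cls χ i).card) (a b : Ω) (hab : a ≠ b) :
    ((WW χ).filter (fun w => E (w a) (w b))).card * (m - 1) ≤ (WW χ).card * L := by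
  classical
  set Bad := (WW χ).filter (fun w => E (w a) (w b)) with hBad
  have h1 : Bad.card * (m - 1) ≤ (Bad.sigma (fun w => (cls χ (χ b)).erase (w a))).card := by
    rw [Finset.card_sigma, ← smul_eq_mul, ← Finset.sum_const]
    apply Finset.sum_le_sum
    intro w _
    have := Finset.pred_card_le_card_erase (s := cls χ (χ b)) (a := w a)
    have := hm (χ b)
    omega
  have h2 : ((WW χ).sigma (fun w => Finset.univ.filter (fun c => E (w a) c))).card ≤
      (WW χ).card * L := by
    rw [Finset.card_sigma, ← smul_eq_mul, ← Finset.sum_const]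
    exact Finset.sum_le_sum (fun w _ => hE (w a))
  refine h1.trans (le_trans ?_ h2)
  apply Finset.card_le_card_of_injOn
    (fun z : (Σ _ : Perm Ω, Ω) => (⟨swap (z.1 b) z.2 * z.1, z.1 b⟩ : (Σ _ : Perm Ω, Ω)))
  · rintro ⟨w, c⟩ hz
    simp only [Finset.coe_sigma, Set.mem_sigma_iff, Finset.mem_coe, hBad, Finset.mem_filter,
      Finset.mem_erase, mem_cls] at hz
    obtain ⟨⟨hw, hwE⟩, hc, hc'⟩ := hz
    simp only [Finset.coe_sigma, Set.mem_sigma_iff, Finset.mem_coe, Finset.mem_filter,
      Finset.mem_univ, true_and]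
    refine ⟨swap_mem_WW χ hw ?_, ?_⟩
    · rw [(mem_WW χ).1 hw b, hc']
    · rw [Perm.mul_apply, swap_apply_of_ne_of_ne (fun h => hab (w.injective h)) (fun h => hc h.symm)]
      exact hwE
  · rintro ⟨w, c⟩ hz ⟨w', c'⟩ hz' he
    simp only [Finset.coe_sigma, Set.mem_sigma_iff, Finset.mem_coe, hBad, Finset.mem_filter,
      Finset.mem_erase, mem_cls] at hz hz'
    simp only [Sigma.mk.injEq] at he
    obtain ⟨he1, he2⟩ := he
    have he2' : w b = w' b := eq_of_heq (by simpa using he2)
    have h3 : (swap (w b) c * w) b = (swap (w' b) c' * w') b := by rw [he1]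
    rw [Perm.mul_apply, Perm.mul_apply, swap_apply_left, swap_apply_left] at h3
    subst h3
    rw [he2'] at he1
    have := mul_left_cancel he1
    subst this
    rfl

end Pool.Agent.R674.SI
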