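import Mathlib
import Pool.Agent.R674.SI.Young

/-!
# Counting conjugating elements
-/

namespace Pool.Agent.R674.SI

open Equiv

theorem conj_zpow {Ω : Type} {h k w : Perm Ω} (hw : h * w = w * k) (j : ℤ) (a : Ω) :
    w ((k ^ j) a) = (h ^ j) (w a) := by
  have h1 : h = w * k * w⁻¹ := by rw [← hw]; group
  have h2 : h ^ j * w = w * k ^ j := by
    rw [h1, _root_.conj_zpow]; group
  calc w ((k ^ j) a) = (w * k ^ j) a := rfl
    _ = (h ^ j * w) a := by rw [h2]
    _ = (h ^ j) (w a) := rfl

theorem conj_count {n : ℕ} {κ : Type} [Fintype κ] [DecidableEq κ] (χ : Fin n → κ)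
    (h k : Perm (Fin n)) (s : ℕ) (hs : h.support.card = s) (hs' : k.support.card = s)
    (m : ℕ) (hm : ∀ i, m ≤ (cls χ i).card) :
    (((WW χ).filter (fun w => h * w = w * k)).card : ℝ) * ((m : ℝ) / Real.exp 1) ^ s ≤
      (Real.sqrt s) ^ s * (WW χ).card := by
  classical
  set R := k.support.filter (fun a => ∀ j : ℤ, a ≤ (k ^ j) a) with hR
  -- `2 |R| ≤ s`
  have hR2 : 2 * R.card ≤ s := by
    have h1 : (R ∪ R.image k).card ≤ k.support.card := by
      apply Finset.card_le_card
      intro a ha
      rw [Finset.mem_union, Finset.mem_image] at ha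
      rcases ha with ha | ⟨b, hb, rfl⟩
      · exact (Finset.mem_filter.1 ha).1
      · exact Perm.apply_mem_support.2 (Finset.mem_filter.1 hb).1
    rw [Finset.card_union_of_disjoint, Finset.card_image_of_injective _ k.injective] at h1
    · omega
    · rw [Finset.disjoint_left]
      intro a ha hb
      rw [Finset.mem_image] at hb
      obtain ⟨b, hb, rfl⟩ := hb
      rw [hR, Finset.mem_filter] at ha hb
      have e1 := hb.2 1
      have e2 := ha.2 (-1)
      rw [zpow_one] at e1
      rw [zpow_neg_one, show k⁻¹ (k b) = b by simp] at e2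
      exact (Perm.mem_support.1 hb.1) (le_antisymm e2 e1)
  -- representatives
  have hrep : ∀ b ∈ k.support, ∃ a ∈ R, ∃ j : ℤ, (k ^ j) a = b := by
    intro b hb
    let C : Finset (Fin n) := Finset.univ.filter (fun c => ∃ j : ℤ, (k ^ j) b = c)
    have hCne : C.Nonempty := ⟨b, by simp only [C, Finset.mem_filter, Finset.mem_univ, true_and]; exact ⟨0, rfl⟩⟩
    obtain ⟨j, hj⟩ : ∃ j : ℤ, (k ^ j) b = C.min' hCne := by
      have := C.min'_mem hCne
      simpa only [C, Finset.mem_filter, Finset.mem_univ, true_and] using this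
    refine ⟨C.min' hCne, ?_, -j, ?_⟩
    · rw [hR, Finset.mem_filter]
      constructor
      · rw [← hj]
        exact Perm.zpow_apply_mem_support.2 hb
      · intro i
        apply C.min'_le
        simp only [C, Finset.mem_filter, Finset.mem_univ, true_and]
        refine ⟨i + j, ?_⟩
        rw [zpow_add, Perm.mul_apply, hj]
    · rw [← hj, ← Perm.mul_apply, ← zpow_add]
      simp
  set F := (WW χ).filter (fun w => h * w = w * k) with hF
  have hDpos := Dsc_pos χ k.support
  let Ψ : Perm (Fin n) → (R → Fin n) := fun w a => w a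
  have himg : (F.image Ψ).card ≤ s ^ R.card := by
    have h1 : F.image Ψ ⊆ Fintype.piFinset (fun _ : R => h.support) := by
      intro r hr
      rw [Finset.mem_image] at hr
      obtain ⟨w, hw, rfl⟩ := hr
      rw [hF, Finset.mem_filter] at hw
      rw [Fintype.mem_piFinset]
      intro a
      rw [Perm.mem_support]
      have ha : (a : Fin n) ∈ k.support := (Finset.mem_filter.1 a.2).1
      rw [Perm.mem_support] at ha
      intro he
      apply ha
      apply w.injective
      have : w (k a) = h (w a) := by
        calc w (k a) = (w * k) a := rfl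
          _ = (h * w) a := by rw [hw.2]
          _ = h (w a) := rfl
      rw [this]
      exact he
    refine (Finset.card_le_card h1).trans ?_
    rw [Fintype.card_piFinset, Finset.prod_const, Finset.card_univ, Fintype.card_coe, hs]
  have hfib : ∀ r ∈ F.image Ψ, (F.filter (fun w => Ψ w = r)).card ≤
      (WW χ).card / Dsc χ k.support := by
    intro r hr
    rw [Nat.le_div_iff_mul_le hDpos]
    rw [Finset.mem_image] at hr
    obtain ⟨w₀, hw₀, rfl⟩ := hr
    have hy := young_count χ k.support w₀
    refine le_trans ?_ hy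
    apply Nat.mul_le_mul_right
    apply Finset.card_le_card
    intro w hw
    rw [Finset.mem_filter] at hw
    rw [hF, Finset.mem_filter] at hw hw₀
    have hmem : w ∈ (WW χ).filter (fun w => ∀ b ∈ k.support, w b = w₀ b) := by
      rw [Finset.mem_filter]
      refine ⟨hw.1.1, ?_⟩
      intro b hb
      obtain ⟨a, ha, j, rfl⟩ := hrep b hb
      rw [conj_zpow hw.1.2, conj_zpow hw₀.2]
      have : w a = w₀ a := congrFun hw.2 ⟨a, ha⟩
      rw [this]
    convert hmem
  have hcard : F.card * Dsc χ k.support ≤ (WW χ).card * s ^ R.card := by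
    have h1 := Finset.card_le_mul_card_image F _ hfib
    calc F.card * Dsc χ k.support
        ≤ ((WW χ).card / Dsc χ k.support * (F.image Ψ).card) * Dsc χ k.support :=
          Nat.mul_le_mul_right _ h1
      _ = ((WW χ).card / Dsc χ k.support * Dsc χ k.support) * (F.image Ψ).card := by ring
      _ ≤ (WW χ).card * s ^ R.card :=
          Nat.mul_le_mul (Nat.div_mul_le_self _ _) himg
  have h1 := Dsc_lower χ k.support m hm
  rw [hs'] at h1
  have h2 : (F.card : ℝ) * Dsc χ k.support ≤ (WW χ).card * (s : ℝ) ^ R.card := by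
    exact_mod_cast hcard
  have h3 : (s : ℝ) ^ R.card ≤ (Real.sqrt s) ^ s := by
    rcases Nat.eq_zero_or_pos s with rfl | hspos
    · have : R.card = 0 := by omega
      rw [this]; simp
    · have e1 : (1 : ℝ) ≤ Real.sqrt s := by
        rw [Real.one_le_sqrt]
        exact_mod_cast hspos
      calc (s : ℝ) ^ R.card = (Real.sqrt s ^ 2) ^ R.card := by
            rw [Real.sq_sqrt (by positivity)]
        _ = Real.sqrt s ^ (2 * R.card) := by rw [← pow_mul]
        _ ≤ Real.sqrt s ^ s := pow_le_pow_right₀ e1 hR2
  calc (F.card : ℝ) * ((m : ℝ) / Real.exp 1) ^ s ≤ F.card * Dsc χ k.support :=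
        mul_le_mul_of_nonneg_left h1 (by positivity)
    _ ≤ (WW χ).card * (s : ℝ) ^ R.card := h2
    _ ≤ (WW χ).card * (Real.sqrt s) ^ s := mul_le_mul_of_nonneg_left h3 (by positivity)
    _ = _ := by ring

/-- the two parity classes of the Young subgroup have the same size -/
theorem parity_half {Ω κ : Type} [Fintype Ω] [DecidableEq Ω] [Fintype κ] [DecidableEq κ]
    (χ : Ω → κ) {x y : Ω} (hxy : x ≠ y) (hχ : χ x = χ y) (ε : ℤˣ) :
    2 * ((WW χ).filter (fun w => Perm.sign w = ε)).card = (WW χ).card := by
  classical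
  have h1 : ((WW χ).filter (fun w => Perm.sign w = ε)).card =
      ((WW χ).filter (fun w => ¬ Perm.sign w = ε)).card := by
    apply Finset.card_bij (fun w _ => swap x y * w)
    · intro w hw
      rw [Finset.mem_filter] at hw ⊢
      refine ⟨swap_mem_WW χ hw.1 hχ, ?_⟩
      rw [Perm.sign_mul, Perm.sign_swap hxy, hw.2]
      intro h
      have : (-1 : ℤˣ) * ε = 1 * ε := by rw [h, one_mul]
      have := mul_right_cancel this
      exact absurd this (by decide)
    · intro w _ w' _ h
      exact mul_left_cancel h
    · intro w hw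
      rw [Finset.mem_filter] at hw
      refine ⟨swap x y * w, ?_, by rw [← mul_assoc, swap_mul_self, one_mul]⟩
      rw [Finset.mem_filter]
      refine ⟨swap_mem_WW χ hw.1 hχ, ?_⟩
      rw [Perm.sign_mul, Perm.sign_swap hxy]
      have := hw.2
      rcases Int.units_eq_one_or (Perm.sign w) with h | h <;>
        rcases Int.units_eq_one_or ε with h' | h' <;> simp_all
  have h2 := Finset.card_filter_add_card_filter_not (s := WW χ) (fun w => Perm.sign w = ε)
  omega

end Pool.Agent.R674.SI
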