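import Mathlib
import Pool.Agent.R674.SI.Asym
import Pool.Agent.R674.SI.Conj

/-!
# Assembly lemmas
-/

namespace Pool.Agent.R674.SI

open Equiv

theorem exists_subset_between {ι : Type} [DecidableEq ι] (f : ι → ℕ) (L D : ℕ)
    (hf : ∀ j, f j ≤ L) (s : Finset ι) : D ≤ ∑ j ∈ s, f j →
    ∃ t ⊆ s, D ≤ ∑ j ∈ t, f j ∧ ∑ j ∈ t, f j ≤ D + L := by
  induction s using Finset.induction_on with
  | empty =>
    intro h
    exact ⟨∅, Finset.Subset.refl _, h, by simp⟩
  | insert a s ha ih =>
    intro h
    by_cases h1 : D ≤ ∑ j ∈ s, f j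
    · obtain ⟨t, ht, h2⟩ := ih h1
      exact ⟨t, ht.trans (Finset.subset_insert _ _), h2⟩
    · refine ⟨insert a s, Finset.Subset.refl _, h, ?_⟩
      rw [Finset.sum_insert ha]
      have := hf a
      omega

theorem group_lemma {ι : Type} [DecidableEq ι] (f : ι → ℕ) (L D : ℕ) (hf : ∀ j, f j ≤ L) (q : ℕ) :
    ∀ s : Finset ι, q * (D + L) ≤ ∑ j ∈ s, f j →
    ∃ γ : ι → ℕ, ∀ i < q, D ≤ ∑ j ∈ s.filter (fun j => γ j = i), f j := by
  induction q with
  | zero => intro s _; exact ⟨fun _ => 0, fun i hi => absurd hi (Nat.not_lt_zero _)⟩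
  | succ q ih =>
    intro s hs
    have h0 : D ≤ ∑ j ∈ s, f j := by nlinarith
    obtain ⟨t, hts, h1, h2⟩ := exists_subset_between f L D hf s h0
    have h3 : ∑ j ∈ s \ t, f j + ∑ j ∈ t, f j = ∑ j ∈ s, f j := Finset.sum_sdiff hts
    have h4 : q * (D + L) ≤ ∑ j ∈ s \ t, f j := by
      have : (q + 1) * (D + L) = q * (D + L) + (D + L) := by ring
      omega
    obtain ⟨γ, hγ⟩ := ih (s \ t) h4
    refine ⟨fun j => if j ∈ t then q else γ j, ?_⟩
    intro i hi
    rcases Nat.lt_or_ge i q with hiq | hiq
    · refine (hγ i hiq).trans (Finset.sum_le_sum_of_subset ?_)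
      intro j hj
      rw [Finset.mem_filter, Finset.mem_sdiff] at hj
      rw [Finset.mem_filter]
      refine ⟨hj.1.1, ?_⟩
      show (if j ∈ t then q else γ j) = i
      rw [if_neg hj.1.2]; exact hj.2
    · have : i = q := by omega
      subst this
      refine h1.trans (Finset.sum_le_sum_of_subset ?_)
      intro j hj
      rw [Finset.mem_filter]
      refine ⟨hts hj, ?_⟩
      show (if j ∈ t then i else γ j) = i
      rw [if_pos hj]

/-- orbit labels -/
theorem exists_label {n : ℕ} (H : Subgroup (Perm (Fin n))) :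
    ∃ p : Fin n → Fin n, ∀ a b, p a = p b ↔ ∃ h : H, (h : Perm (Fin n)) a = b := by
  classical
  let S : Setoid (Fin n) :=
    { r := fun a b => ∃ h : H, (h : Perm (Fin n)) a = b
      iseqv := by
        refine ⟨fun a => ⟨1, rfl⟩, ?_, ?_⟩
        · rintro a b ⟨h, rfl⟩
          exact ⟨h⁻¹, by simp⟩
        · rintro a b c ⟨h, rfl⟩ ⟨k, rfl⟩
          exact ⟨k * h, rfl⟩ }
  refine ⟨fun a => (Quotient.mk S a).out, fun a b => ?_⟩
  constructor
  · intro h
    have h' : Quotient.mk S a = Quotient.mk S b := by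
      rw [← Quotient.out_eq (Quotient.mk S a), ← Quotient.out_eq (Quotient.mk S b)]
      exact congrArg _ h
    exact Quotient.exact h'
  · intro h
    have : Quotient.mk S a = Quotient.mk S b := Quotient.sound h
    simp only [this]

theorem label_card {n L : ℕ} {H : Subgroup (Perm (Fin n))} {p : Fin n → Fin n}
    (hp : ∀ a b, p a = p b ↔ ∃ h : H, (h : Perm (Fin n)) a = b)
    (horb : ∀ a, Nat.card {b // ∃ h : H, (h : Perm (Fin n)) a = b} ≤ L) (l : Fin n) :
    (Finset.univ.filter (fun a => p a = l)).card ≤ L := by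
  classical
  rcases (Finset.univ.filter (fun a => p a = l)).eq_empty_or_nonempty with h | ⟨a, ha⟩
  · rw [h]; simp
  · rw [Finset.mem_filter] at ha
    refine le_trans ?_ (horb a)
    rw [Nat.card_eq_fintype_card, Fintype.card_subtype]
    apply Finset.card_le_card
    intro b hb
    rw [Finset.mem_filter] at hb ⊢
    exact ⟨Finset.mem_univ _, (hp a b).1 (ha.2.trans hb.2.symm)⟩

theorem balanced {n L D m : ℕ} (H : Subgroup (Perm (Fin n))) (c : Fin n → Fin qq)
    (hc : ∀ h ∈ H, (∀ a, c (h a) = c a) → h = 1)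
    (horb : ∀ a, Nat.card {b // ∃ h : H, (h : Perm (Fin n)) a = b} ≤ L)
    (hn : qq * (D + L) ≤ n) (hm : qq * m ≤ D) :
    ∃ χ : Fin n → Fin qq, (∀ h ∈ H, (∀ a, χ (h a) = χ a) → h = 1) ∧
      ∀ i, m ≤ (cls χ i).card := by
  classical
  obtain ⟨p, hp⟩ := exists_label H
  set f : Fin n → ℕ := fun l => (Finset.univ.filter (fun a => p a = l)).card with hf
  have hfL : ∀ l, f l ≤ L := label_card hp horb
  have hsum : ∑ l, f l = n := by
    have := Finset.card_eq_sum_card_fiberwise (s := (Finset.univ : Finset (Fin n))) (f := p)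
      (t := Finset.univ) (fun x _ => Finset.mem_univ _)
    rw [Finset.card_univ, Fintype.card_fin] at this
    exact this.symm
  obtain ⟨γ, hγ⟩ := group_lemma f L D hfL qq Finset.univ (by rw [hsum]; exact hn)
  have hq : 0 < qq := by unfold qq; positivity
  let γ' : Fin n → Fin qq := fun l => if h : γ l < qq then ⟨γ l, h⟩ else ⟨0, hq⟩
  have hmaj : ∀ l, ∃ M : Fin qq, f l ≤
      qq * (Finset.univ.filter (fun a => p a = l ∧ c a = M)).card := by
    intro l
    by_contra hcon
    push Not at hcon
    have h1 : f l = ∑ M, (Finset.univ.filter (fun a => p a = l ∧ c a = M)).card := by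
      have := Finset.card_eq_sum_card_fiberwise (s := (Finset.univ.filter (fun a => p a = l)))
        (f := c) (t := Finset.univ) (fun x _ => Finset.mem_univ _)
      rw [hf]
      simp only
      rw [this]
      apply Finset.sum_congr rfl
      intro M _
      rw [Finset.filter_filter]
    have h2 : ∑ M : Fin qq, qq * (Finset.univ.filter (fun a => p a = l ∧ c a = M)).card <
        ∑ M : Fin qq, f l :=
      Finset.sum_lt_sum_of_nonempty ⟨⟨0, hq⟩, Finset.mem_univ _⟩ (fun M _ => hcon M)
    rw [← Finset.mul_sum, ← h1, Finset.sum_const, Finset.card_univ, Fintype.card_fin,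
      smul_eq_mul] at h2
    exact lt_irrefl _ h2
  choose M hM using hmaj
  refine ⟨fun a => swap (M (p a)) (γ' (p a)) (c a), ?_, ?_⟩
  · intro h hh hχ
    apply hc h hh
    intro a
    have hpa : p (h a) = p a := ((hp a (h a)).2 ⟨⟨h, hh⟩, rfl⟩).symm
    have := hχ a
    simp only [hpa] at this
    exact (swap (M (p a)) (γ' (p a))).injective this
  · intro i
    have h1 := hγ i.1 i.2
    have h2 : ∑ l ∈ Finset.univ.filter (fun l => γ l = i.1), f l ≤
        qq * (cls (fun a => swap (M (p a)) (γ' (p a)) (c a)) i).card := by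
      calc ∑ l ∈ Finset.univ.filter (fun l => γ l = i.1), f l
          ≤ ∑ l ∈ Finset.univ.filter (fun l => γ l = i.1),
            qq * (Finset.univ.filter (fun a => p a = l ∧ c a = M l)).card :=
            Finset.sum_le_sum (fun l _ => hM l)
        _ = qq * ∑ l ∈ Finset.univ.filter (fun l => γ l = i.1),
            (Finset.univ.filter (fun a => p a = l ∧ c a = M l)).card := by rw [Finset.mul_sum]
        _ ≤ _ := by
            apply Nat.mul_le_mul_left
            rw [← Finset.card_biUnion]
            · apply Finset.card_le_card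
              intro a ha
              simp only [Finset.mem_biUnion, Finset.mem_filter, Finset.mem_univ, true_and] at ha
              obtain ⟨l, hl, hpl, hcl⟩ := ha
              rw [mem_cls]
              rw [hpl, hcl, swap_apply_left]
              simp only [γ']
              rw [dif_pos (by rw [hl]; exact i.2)]
              exact Fin.ext hl
            · intro l _ l' _ hll
              rw [Function.onFun, Finset.disjoint_left]
              intro a ha ha'
              simp only [Finset.mem_filter, Finset.mem_univ, true_and] at ha ha'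
              exact hll (ha.1.symm.trans ha'.1)
    have h3 : qq * m ≤ qq * (cls (fun a => swap (M (p a)) (γ' (p a)) (c a)) i).card :=
      hm.trans (h1.trans h2)
    exact Nat.le_of_mul_le_mul_left h3 hq

theorem sorting {n q : ℕ} (χ : Fin n → Fin q) (p : Fin n → Fin n) :
    ∃ σ : Perm (Fin n), (Finset.univ.filter
      (fun l => ∃ a b, p a = l ∧ p b = l ∧ χ (σ a) ≠ χ (σ b))).card ≤ q := by
  classical
  set tx := Tuple.sort χ with htx
  set tp := Tuple.sort p with htp
  have mx : Monotone (χ ∘ tx) := Tuple.monotone_sort χ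
  have mp : Monotone (p ∘ tp) := Tuple.monotone_sort p
  refine ⟨tp.symm.trans tx, ?_⟩
  set Bad := Finset.univ.filter
      (fun l => ∃ a b, p a = l ∧ p b = l ∧ χ ((tp.symm.trans tx) a) ≠ χ ((tp.symm.trans tx) b))
    with hBad
  have hex : ∀ l, ∃ ij : Fin n × Fin n, l ∈ Bad → ij.1 < ij.2 ∧ p (tp ij.1) = l ∧
      p (tp ij.2) = l ∧ χ (tx ij.1) < χ (tx ij.2) := by
    intro l
    by_cases hl : l ∈ Bad
    · have hl' := hl
      rw [hBad, Finset.mem_filter] at hl'
      obtain ⟨_, a, b, ha, hb, hab⟩ := hl'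
      simp only [Equiv.trans_apply] at hab
      have hij : tp.symm a ≠ tp.symm b := fun h => hab (by rw [h])
      rcases lt_or_gt_of_ne hij with h | h
      · refine ⟨(tp.symm a, tp.symm b), fun _ => ⟨h, by simp [ha], by simp [hb], ?_⟩⟩
        exact lt_of_le_of_ne (mx h.le) hab
      · refine ⟨(tp.symm b, tp.symm a), fun _ => ⟨h, by simp [hb], by simp [ha], ?_⟩⟩
        exact lt_of_le_of_ne (mx h.le) (Ne.symm hab)
    · exact ⟨(l, l), fun h => absurd h hl⟩
  choose ij hij using hex
  have : Bad.card ≤ (Finset.univ : Finset (Fin q)).card := by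
    apply Finset.card_le_card_of_injOn (fun l => χ (tx (ij l).1)) (fun _ _ => Finset.mem_univ _)
    have key : ∀ l ∈ Bad, ∀ l' ∈ Bad, l < l' → χ (tx (ij l).1) < χ (tx (ij l').1) := by
      intro l hl l' hl' hlt
      obtain ⟨h1, h2, h3, h4⟩ := hij l hl
      obtain ⟨h1', h2', h3', h4'⟩ := hij l' hl'
      have h5 : (ij l).2 < (ij l').1 := by
        by_contra hcon
        have := mp (not_lt.1 hcon)
        simp only [Function.comp_apply, h3, h2'] at this
        exact absurd hlt (not_lt.2 this)
      exact lt_of_lt_of_le h4 (mx h5.le)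
    intro l hl l' hl' he
    rcases lt_trichotomy l l' with h | h | h
    · exact absurd he (ne_of_lt (key l hl l' hl' h))
    · exact h
    · exact absurd he (ne_of_gt (key l' hl' l hl h))
  rwa [Finset.card_univ, Fintype.card_fin] at this

open Classical in
theorem Ns_bound {n : ℕ} (H : Subgroup (Perm (Fin n))) [Group.IsSolvable H] (s : ℕ) (hs : 1 ≤ s)
    (hsn : s ≤ n) : ((Finset.univ.filter (fun g : Perm (Fin n) => g ∈ H ∧
      g.support.card = s)).card : ℝ) ≤ (Real.exp cc * Real.sqrt (n / s)) ^ s := by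
  have hn0 : (0 : ℝ) < n := by exact_mod_cast (by omega : 0 < n)
  have hs0 : (0 : ℝ) < s := by exact_mod_cast hs
  set t := Real.sqrt (s / n) with ht
  have ht0 : 0 < t := Real.sqrt_pos.2 (by positivity)
  have ht1 : t ≤ 1 := by
    rw [ht, Real.sqrt_le_one]
    rw [div_le_one hn0]
    exact_mod_cast hsn
  have ht2 : t ^ 2 = s / n := Real.sq_sqrt (by positivity)
  have h1 := FH_bound n (Fintype.card_fin n) (by omega) H t ht0.le ht1
  have h2 : ((Finset.univ.filter (fun g : Perm (Fin n) => g ∈ H ∧
      g.support.card = s)).card : ℝ) * t ^ s ≤ FH H t := by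
    unfold FH
    rw [← nsmul_eq_mul, ← Finset.sum_const]
    have e1 : ∑ _g ∈ Finset.univ.filter (fun g : Perm (Fin n) => g ∈ H ∧
        g.support.card = s), t ^ s = ∑ g ∈ Finset.univ.filter (fun g : Perm (Fin n) => g ∈ H ∧
        g.support.card = s), t ^ g.support.card := by
      apply Finset.sum_congr rfl
      intro g hg
      rw [Finset.mem_filter] at hg
      rw [hg.2.2]
    rw [e1]
    apply Finset.sum_le_sum_of_subset_of_nonneg
    · intro g hg
      rw [Finset.mem_filter] at hg ⊢
      exact ⟨hg.1, hg.2.1⟩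
    · intro g _ _
      positivity
  have h3 : Real.exp ((cc * n - 1) * t ^ 2) ≤ Real.exp cc ^ s := by
    rw [← Real.exp_nat_mul]
    apply Real.exp_le_exp.2
    rw [ht2]
    have : (cc * n - 1) * ((s : ℝ) / n) = s * cc - s / n := by field_simp
    rw [this]
    have : (0 : ℝ) ≤ s / n := by positivity
    linarith
  have h4 : Real.sqrt (n / s) = t⁻¹ := by
    rw [ht, ← Real.sqrt_inv, inv_div]
  rw [h4, mul_pow, inv_pow, ← div_eq_mul_inv, le_div_iff₀ (by positivity)]
  exact h2.trans (h1.trans h3)

end Pool.Agent.R674.SI
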